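import Pool.Agent.H68.BJ.CNT

/-!
# Project MP_e82622_OS (helper68), module CN2: random colouring, union bound plus Markov

The same as `Pool.Agent.H68.BJ.exists_colouring` (file `Pool/Agent/H68/BJ/CNT.lean`; its two private
lemmas `CNT_bern`, `CNT_card` must be copied here, prefix `CN2_`), with a second family `F'` for
which only the weighted number of failures is bounded.

Proof.  Let `Ω = X → ZMod ℓ`, `#Ω = ℓ ^ #X`.  For `ω : Ω` put
`f ω = #{(i, κ) : i ∈ J, κ missing on F i} + δ * #{(i, κ) : i ∈ J', κ missing on F' i}`.  By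
`CNT_card` the sum of `f` over `Ω` is at most `#Ω * (∑_{J} ... + δ * ∑_{J'} ...) < #Ω`.  So some
`ω` has `f ω < 1` (`Finset.exists_lt_of_sum_lt` or contradiction with `Finset.card_nsmul_le_sum`).
Then the first cardinality is `0`, so nothing is missing on `F i`, `i ∈ J`, and with
`Mb = J'.filter (some κ is missing)` we have `#Mb ≤ #{(i, κ) ...}`, so `δ * #Mb < 1`.
-/

set_option autoImplicit false

namespace Pool.Agent.H68.OS

open Pool.Agent.H68.BJ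

private lemma CN2_bern (ℓ : ℕ) [NeZero ℓ] (g : ℕ) :
    (ℓ : ℝ) - g ≤ ℓ * (1 - 1 / (ℓ : ℝ)) ^ g := by
  have hl : (1 : ℝ) ≤ ℓ := by
    have := NeZero.one_le (n := ℓ)
    exact_mod_cast this
  have hl0 : (0 : ℝ) < ℓ := by linarith
  have h1 : 1 + (g : ℝ) * (-(1 / (ℓ : ℝ))) ≤ (1 + -(1 / (ℓ : ℝ))) ^ g := by
    apply one_add_mul_le_pow
    have : 1 / (ℓ : ℝ) ≤ 1 := by rw [div_le_one hl0]; exact hl
    linarith
  have h2 : (ℓ : ℝ) * (1 + (g : ℝ) * (-(1 / (ℓ : ℝ)))) ≤ ℓ * (1 + -(1 / (ℓ : ℝ))) ^ g :=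
    mul_le_mul_of_nonneg_left h1 hl0.le
  have h3 : (ℓ : ℝ) * (1 + (g : ℝ) * (-(1 / (ℓ : ℝ)))) = ℓ - g := by field_simp; ring
  rw [h3] at h2
  exact h2

private lemma CN2_card {E X : Type} [Fintype X] [DecidableEq X] [DecidableEq E]
    (ℓ : ℕ) [NeZero ℓ] (F : Finset E) (var : E → X) (sgn : E → ZMod ℓ)
    (hinj : ∀ a ∈ F, ∀ b ∈ F, var a = var b → sgn a = sgn b → a = b) (κ : ZMod ℓ) :
    ((Finset.univ.filter fun ω : X → ZMod ℓ => ∀ a ∈ F, ω (var a) + sgn a ≠ κ).card : ℝ) ≤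
      (ℓ : ℝ) ^ Fintype.card X * (1 - 1 / (ℓ : ℝ)) ^ F.card := by
  classical
  set g : X → ℕ := fun y => (F.filter fun a => var a = y).card with hg
  set P : X → Finset (ZMod ℓ) := fun y =>
    Finset.univ.filter fun v => ∀ a ∈ F, var a = y → v + sgn a ≠ κ with hP
  have h1 : (Finset.univ.filter fun ω : X → ZMod ℓ => ∀ a ∈ F, ω (var a) + sgn a ≠ κ) =
      Fintype.piFinset P := by
    ext ω
    simp only [Finset.mem_filter, Finset.mem_univ, true_and, Fintype.mem_piFinset, hP]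
    constructor
    · rintro h y a ha rfl
      exact h a ha
    · intro h a ha
      exact h (var a) a ha rfl
  have hcard : ∀ y, ((P y).card : ℝ) = ℓ - g y := by
    intro y
    have h2 : (Finset.univ.filter fun v : ZMod ℓ => ¬ ∀ a ∈ F, var a = y → v + sgn a ≠ κ) =
        (F.filter fun a => var a = y).image fun a => κ - sgn a := by
      ext v
      simp only [Finset.mem_filter, Finset.mem_univ, true_and, Finset.mem_image]
      push Not
      constructor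
      · rintro ⟨a, ha, hy, hv⟩
        exact ⟨a, ⟨ha, hy⟩, by rw [← hv]; ring⟩
      · rintro ⟨a, ⟨ha, hy⟩, hv⟩
        exact ⟨a, ha, hy, by rw [← hv]; ring⟩
    have h3 : ((F.filter fun a => var a = y).image fun a => κ - sgn a).card = g y := by
      rw [Finset.card_image_of_injOn]
      intro a ha b hb hab
      simp only [Finset.coe_filter, Set.mem_ofPred_eq] at ha hb
      refine hinj a ha.1 b hb.1 (ha.2.trans hb.2.symm) ?_
      exact sub_right_injective hab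
    have h4 := Finset.card_filter_add_card_filter_not (s := (Finset.univ : Finset (ZMod ℓ)))
      (fun v : ZMod ℓ => ∀ a ∈ F, var a = y → v + sgn a ≠ κ)
    rw [h2, h3, Finset.card_univ, ZMod.card] at h4
    have h5 : ((P y).card : ℝ) + g y = ℓ := by exact_mod_cast h4
    linarith
  have hsum : ∑ y, g y = F.card := by
    rw [hg]
    exact (Finset.card_eq_sum_card_fiberwise (f := var) (t := Finset.univ)
      (fun a _ => by simp)).symm
  rw [h1, Fintype.card_piFinset]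
  push_cast
  calc ∏ y, ((P y).card : ℝ) ≤ ∏ y, ((ℓ : ℝ) * (1 - 1 / (ℓ : ℝ)) ^ g y) := by
        refine Finset.prod_le_prod (fun y _ => Nat.cast_nonneg _) fun y _ => ?_
        rw [hcard y]
        exact CN2_bern ℓ (g y)
    _ = (ℓ : ℝ) ^ Fintype.card X * (1 - 1 / (ℓ : ℝ)) ^ F.card := by
        rw [Finset.prod_mul_distrib, Finset.prod_const, Finset.card_univ,
          Finset.prod_pow_eq_pow_sum, hsum]

private lemma CN2_sum {E X I : Type} [Fintype X] [DecidableEq X] [DecidableEq E]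
    (ℓ : ℕ) [NeZero ℓ] (J : Finset I) (F : I → Finset E) (var : E → X) (sgn : E → ZMod ℓ)
    (hinj : ∀ i ∈ J, ∀ a ∈ F i, ∀ b ∈ F i, var a = var b → sgn a = sgn b → a = b) :
    ∑ ω : X → ZMod ℓ, (((J ×ˢ (Finset.univ : Finset (ZMod ℓ))).filter
      (fun p => ∀ a ∈ F p.1, ω (var a) + sgn a ≠ p.2)).card : ℝ) ≤
      (ℓ : ℝ) ^ Fintype.card X * ∑ i ∈ J, (ℓ : ℝ) * (1 - 1 / (ℓ : ℝ)) ^ (F i).card := by
  have h1 : ∀ ω : X → ZMod ℓ, (((J ×ˢ (Finset.univ : Finset (ZMod ℓ))).filter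
      (fun p => ∀ a ∈ F p.1, ω (var a) + sgn a ≠ p.2)).card : ℝ) =
      ∑ p ∈ J ×ˢ (Finset.univ : Finset (ZMod ℓ)),
        (if ∀ a ∈ F p.1, ω (var a) + sgn a ≠ p.2 then (1 : ℝ) else 0) := by
    intro ω
    rw [Finset.card_filter]
    push_cast
    rfl
  rw [Finset.sum_congr rfl (fun ω _ => h1 ω), Finset.sum_comm, Finset.sum_product, Finset.mul_sum]
  refine Finset.sum_le_sum fun i hi => ?_
  have h2 : ∀ κ : ZMod ℓ, ∑ ω : X → ZMod ℓ,
      (if ∀ a ∈ F i, ω (var a) + sgn a ≠ κ then (1 : ℝ) else 0) ≤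
      (ℓ : ℝ) ^ Fintype.card X * (1 - 1 / (ℓ : ℝ)) ^ (F i).card := by
    intro κ
    have h3 := CN2_card ℓ (F i) var sgn (hinj i hi) κ
    rw [Finset.card_filter] at h3
    push_cast at h3
    exact h3
  calc ∑ κ : ZMod ℓ, ∑ ω : X → ZMod ℓ,
        (if ∀ a ∈ F i, ω (var a) + sgn a ≠ κ then (1 : ℝ) else 0)
      ≤ ∑ _κ : ZMod ℓ, (ℓ : ℝ) ^ Fintype.card X * (1 - 1 / (ℓ : ℝ)) ^ (F i).card :=
        Finset.sum_le_sum fun κ _ => h2 κ
    _ = _ := by
        rw [Finset.sum_const, Finset.card_univ, ZMod.card, nsmul_eq_mul]; ring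

theorem exists_colouring2 {E X I I' : Type} [Fintype X] [DecidableEq X] [DecidableEq E]
    (ℓ : ℕ) [NeZero ℓ] (J : Finset I) (J' : Finset I') (δ : ℝ) (hδ : 0 ≤ δ)
    (F : I → Finset E) (F' : I' → Finset E) (var : E → X) (sgn : E → ZMod ℓ)
    (hinj : ∀ i ∈ J, ∀ a ∈ F i, ∀ b ∈ F i, var a = var b → sgn a = sgn b → a = b)
    (hinj' : ∀ i ∈ J', ∀ a ∈ F' i, ∀ b ∈ F' i, var a = var b → sgn a = sgn b → a = b)
    (hsum : ∑ i ∈ J, (ℓ : ℝ) * (1 - 1 / (ℓ : ℝ)) ^ (F i).card +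
      δ * ∑ i ∈ J', (ℓ : ℝ) * (1 - 1 / (ℓ : ℝ)) ^ (F' i).card < 1) :
    ∃ (ω : X → ZMod ℓ) (Mb : Finset I'), Mb ⊆ J' ∧ δ * (Mb.card : ℝ) < 1 ∧
      (∀ i ∈ J, ∀ κ : ZMod ℓ, ∃ a ∈ F i, ω (var a) + sgn a = κ) ∧
      ∀ i ∈ J', i ∉ Mb → ∀ κ : ZMod ℓ, ∃ a ∈ F' i, ω (var a) + sgn a = κ := by
  classical
  have hl : (1 : ℝ) ≤ ℓ := by
    have := NeZero.one_le (n := ℓ)
    exact_mod_cast this
  obtain ⟨N, hN⟩ : ∃ N : (X → ZMod ℓ) → ℝ, N = fun ω =>
    (((J ×ˢ (Finset.univ : Finset (ZMod ℓ))).filter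
      (fun p => ∀ a ∈ F p.1, ω (var a) + sgn a ≠ p.2)).card : ℝ) := ⟨_, rfl⟩
  obtain ⟨N', hN'⟩ : ∃ N' : (X → ZMod ℓ) → ℝ, N' = fun ω =>
    (((J' ×ˢ (Finset.univ : Finset (ZMod ℓ))).filter
      (fun p => ∀ a ∈ F' p.1, ω (var a) + sgn a ≠ p.2)).card : ℝ) := ⟨_, rfl⟩
  have s1 : ∑ ω, N ω ≤ (ℓ : ℝ) ^ Fintype.card X *
      ∑ i ∈ J, (ℓ : ℝ) * (1 - 1 / (ℓ : ℝ)) ^ (F i).card := by
    rw [hN]
    have := CN2_sum ℓ J F var sgn hinj
    convert this using 3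
  have s2 : ∑ ω, N' ω ≤ (ℓ : ℝ) ^ Fintype.card X *
      ∑ i ∈ J', (ℓ : ℝ) * (1 - 1 / (ℓ : ℝ)) ^ (F' i).card := by
    rw [hN']
    have := CN2_sum ℓ J' F' var sgn hinj'
    convert this using 3
  have h6 : (0 : ℝ) < (ℓ : ℝ) ^ Fintype.card X := by positivity
  have hex : ∃ ω, N ω + δ * N' ω < 1 := by
    by_contra hcon
    push Not at hcon
    have h1 : ∑ _ω : X → ZMod ℓ, (1 : ℝ) ≤ ∑ ω, (N ω + δ * N' ω) :=
      Finset.sum_le_sum fun ω _ => hcon ω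
    rw [Finset.sum_const, Finset.card_univ, nsmul_eq_mul, mul_one, Fintype.card_fun, ZMod.card,
      Finset.sum_add_distrib, ← Finset.mul_sum] at h1
    push_cast at h1
    have h2 := mul_le_mul_of_nonneg_left s2 hδ
    have h7 := mul_lt_mul_of_pos_left hsum h6
    rw [mul_add, mul_one] at h7
    nlinarith [h1, h2, h7, s1]
  obtain ⟨ω, hω⟩ := hex
  have n0 : 0 ≤ N ω := by rw [hN]; exact Nat.cast_nonneg _
  have n1 : 0 ≤ N' ω := by rw [hN']; exact Nat.cast_nonneg _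
  have n2 := mul_nonneg hδ n1
  have n3 : N ω < 1 := by linarith
  have n4 : δ * N' ω < 1 := by linarith
  refine ⟨ω, J'.filter (fun i => ∃ κ : ZMod ℓ, ∀ a ∈ F' i, ω (var a) + sgn a ≠ κ),
    Finset.filter_subset _ _, ?_, ?_, ?_⟩
  · have hc : (J'.filter (fun i => ∃ κ : ZMod ℓ, ∀ a ∈ F' i, ω (var a) + sgn a ≠ κ)).card ≤
        ((J' ×ˢ (Finset.univ : Finset (ZMod ℓ))).filter
          (fun p => ∀ a ∈ F' p.1, ω (var a) + sgn a ≠ p.2)).card := by
      have hsub : (J'.filter (fun i => ∃ κ : ZMod ℓ, ∀ a ∈ F' i, ω (var a) + sgn a ≠ κ)) ⊆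
          (((J' ×ˢ (Finset.univ : Finset (ZMod ℓ))).filter
          (fun p => ∀ a ∈ F' p.1, ω (var a) + sgn a ≠ p.2))).image Prod.fst := by
        intro i hi
        obtain ⟨hi1, κ, hκ⟩ := Finset.mem_filter.1 hi
        exact Finset.mem_image.2 ⟨(i, κ), Finset.mem_filter.2
          ⟨Finset.mem_product.2 ⟨hi1, Finset.mem_univ _⟩, hκ⟩, rfl⟩
      exact (Finset.card_le_card hsub).trans Finset.card_image_le
    have hc' : ((J'.filter (fun i => ∃ κ : ZMod ℓ, ∀ a ∈ F' i,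
        ω (var a) + sgn a ≠ κ)).card : ℝ) ≤ N' ω := by
      rw [hN']
      show ((J'.filter (fun i => ∃ κ : ZMod ℓ, ∀ a ∈ F' i, ω (var a) + sgn a ≠ κ)).card : ℝ) ≤
        (((J' ×ˢ (Finset.univ : Finset (ZMod ℓ))).filter
          (fun p => ∀ a ∈ F' p.1, ω (var a) + sgn a ≠ p.2)).card : ℝ)
      exact Nat.cast_le.2 hc
    exact lt_of_le_of_lt (mul_le_mul_of_nonneg_left hc' hδ) n4
  · intro i hi κ
    by_contra hcon
    push Not at hcon
    have hm : 0 < ((J ×ˢ (Finset.univ : Finset (ZMod ℓ))).filter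
        (fun p => ∀ a ∈ F p.1, ω (var a) + sgn a ≠ p.2)).card :=
      Finset.card_pos.2 ⟨(i, κ), Finset.mem_filter.2
        ⟨Finset.mem_product.2 ⟨hi, Finset.mem_univ _⟩, hcon⟩⟩
    have hm' : (1 : ℝ) ≤ N ω := by
      rw [hN]
      show (1 : ℝ) ≤ (((J ×ˢ (Finset.univ : Finset (ZMod ℓ))).filter
        (fun p => ∀ a ∈ F p.1, ω (var a) + sgn a ≠ p.2)).card : ℝ)
      exact Nat.one_le_cast.2 hm
    linarith
  · intro i hi hi' κ
    by_contra hcon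
    push Not at hcon
    exact hi' (Finset.mem_filter.2 ⟨hi, κ, hcon⟩)

end Pool.Agent.H68.OS
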