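import Pool.Agent.H68.BJ.FIN

/-!
# Project MP_e82622_OS (helper68), module GEO: small counting lemmas

`deg_le_paths`: `P : ι → Finset (V × V)` with at most one arc of `P y` with a given tail (head):
`outDeg (univ.biUnion P) v ≤ #ι` and `inDeg (univ.biUnion P) v ≤ #ι` (filter of a biUnion,
`card_biUnion_le`, each piece has at most one element).

`outDeg_biUnion`: for pairwise disjoint or arbitrary `B i`: `outDeg (univ.biUnion B) v ≤
∑ i, outDeg (B i) v`.

`free_arcs`: the vertex `v` has `≥ n/x` out-arcs.  At most `P` lie in `U`, at most `t` in `S`, at most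
`#Mb` go to `Mb`, at most `#H` go to `H`.  If less than `ℓ` remain then
`n ≤ x * outDeg A v ≤ x (ℓ - 1 + P + t + #Mb + #H)`, and `4 x t ≤ n`, `4 x #Mb ≤ n` give
`n ≤ 2 x (ℓ - 1 + P + #H) < 2 x (P + #H + ℓ) ≤ n` (`1 ≤ x`), a contradiction.

`exists_surj`: a finset with at least `ℓ` elements has a map onto `ZMod ℓ`
(e.g. an injection `ZMod ℓ → F` from the cardinalities, and `Function.invFun`/`extend`).

`surj_of_card` combines them.
-/

set_option autoImplicit false

namespace Pool.Agent.H68.OS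

open Pool.Agent.H68.BJ

private lemma GEO_card {V ι : Type} [Fintype V] [DecidableEq V] [Fintype ι]
    (P : ι → Finset (V × V)) (q : V × V → Prop) [DecidablePred q]
    (h : ∀ y, ((P y).filter q).card ≤ 1) :
    ((Finset.univ.biUnion P).filter q).card ≤ Fintype.card ι := by
  rw [Finset.filter_biUnion]
  refine Finset.card_biUnion_le.trans ?_
  calc ∑ y : ι, ((P y).filter q).card ≤ ∑ _y : ι, 1 := Finset.sum_le_sum fun y _ => h y
    _ = Fintype.card ι := by simp

theorem outDeg_paths {V ι : Type} [Fintype V] [DecidableEq V] [Fintype ι]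
    (P : ι → Finset (V × V)) (h : ∀ y, ∀ a ∈ P y, ∀ b ∈ P y, a.1 = b.1 → a = b) (v : V) :
    outDeg (Finset.univ.biUnion P) v ≤ Fintype.card ι := by
  unfold outDeg
  apply GEO_card
  intro y
  rw [Finset.card_le_one]
  intro a ha b hb
  rw [Finset.mem_filter] at ha hb
  exact h y a ha.1 b hb.1 (ha.2.trans hb.2.symm)

theorem inDeg_paths {V ι : Type} [Fintype V] [DecidableEq V] [Fintype ι]
    (P : ι → Finset (V × V)) (h : ∀ y, ∀ a ∈ P y, ∀ b ∈ P y, a.2 = b.2 → a = b) (v : V) :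
    inDeg (Finset.univ.biUnion P) v ≤ Fintype.card ι := by
  unfold inDeg
  apply GEO_card
  intro y
  rw [Finset.card_le_one]
  intro a ha b hb
  rw [Finset.mem_filter] at ha hb
  exact h y a ha.1 b hb.1 (ha.2.trans hb.2.symm)

theorem inDeg_sdiff {V : Type} [DecidableEq V] (A U : Finset (V × V)) (v : V) :
    inDeg A v ≤ inDeg (A \ U) v + inDeg U v := by
  unfold inDeg
  refine (Finset.card_le_card ?_).trans (Finset.card_union_le _ _)
  intro a ha
  rw [Finset.mem_filter] at ha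
  rw [Finset.mem_union, Finset.mem_filter, Finset.mem_filter, Finset.mem_sdiff]
  by_cases hU : a ∈ U
  · exact Or.inr ⟨hU, ha.2⟩
  · exact Or.inl ⟨⟨ha.1, hU⟩, ha.2⟩

theorem outDeg_biUnion {V ι : Type} [Fintype V] [DecidableEq V] [Fintype ι]
    (B : ι → Finset (V × V)) (v : V) :
    outDeg (Finset.univ.biUnion B) v ≤ ∑ i, outDeg (B i) v := by
  unfold outDeg
  rw [Finset.filter_biUnion]
  exact Finset.card_biUnion_le

private lemma GEO_to {V : Type} [DecidableEq V] (A : Finset (V × V)) (v : V) (M : Finset V) :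
    (A.filter (fun a => a.1 = v ∧ a.2 ∈ M)).card ≤ M.card := by
  apply Finset.card_le_card_of_injOn (fun a => a.2)
  · intro a ha
    simp only [Finset.coe_filter, Set.mem_ofPred_eq] at ha
    exact ha.2.2
  · intro a ha b hb hab
    simp only [Finset.coe_filter, Set.mem_ofPred_eq] at ha hb
    exact Prod.ext (ha.2.1.trans hb.2.1.symm) hab

theorem free_arcs {V : Type} [Fintype V] [DecidableEq V] (A U S : Finset (V × V)) (v : V)
    (ℓ x P t : ℕ) (Mb H : Finset V) (hx : 1 ≤ x) (hd : Fintype.card V ≤ x * outDeg A v)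
    (hU : outDeg U v ≤ P) (hS : outDeg S v ≤ t) (ht : 4 * x * t ≤ Fintype.card V)
    (hMb : 4 * x * Mb.card ≤ Fintype.card V)
    (hn : 2 * x * (P + H.card + ℓ) ≤ Fintype.card V) :
    ℓ ≤ (A.filter (fun a => a.1 = v ∧ a ∉ U ∧ a ∉ S ∧ a.2 ∉ Mb ∧ a.2 ∉ H)).card := by
  by_contra hcon
  push Not at hcon
  generalize hf : (A.filter (fun a => a.1 = v ∧ a ∉ U ∧ a ∉ S ∧ a.2 ∉ Mb ∧ a.2 ∉ H)).card = f at hcon
  have h1 : outDeg A v ≤ f + P + t + Mb.card + H.card := by
    have hsub : A.filter (fun a => a.1 = v) ⊆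
        (((A.filter (fun a => a.1 = v ∧ a ∉ U ∧ a ∉ S ∧ a.2 ∉ Mb ∧ a.2 ∉ H) ∪
          U.filter (fun a => a.1 = v)) ∪ S.filter (fun a => a.1 = v)) ∪
          A.filter (fun a => a.1 = v ∧ a.2 ∈ Mb)) ∪ A.filter (fun a => a.1 = v ∧ a.2 ∈ H) := by
      intro a ha
      simp only [Finset.mem_filter, Finset.mem_union] at ha ⊢
      tauto
    have h2 := Finset.card_le_card hsub
    have h3 := Finset.card_union_le
      (((A.filter (fun a => a.1 = v ∧ a ∉ U ∧ a ∉ S ∧ a.2 ∉ Mb ∧ a.2 ∉ H) ∪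
          U.filter (fun a => a.1 = v)) ∪ S.filter (fun a => a.1 = v)) ∪
          A.filter (fun a => a.1 = v ∧ a.2 ∈ Mb)) (A.filter (fun a => a.1 = v ∧ a.2 ∈ H))
    have h4 := Finset.card_union_le
      ((A.filter (fun a => a.1 = v ∧ a ∉ U ∧ a ∉ S ∧ a.2 ∉ Mb ∧ a.2 ∉ H) ∪
          U.filter (fun a => a.1 = v)) ∪ S.filter (fun a => a.1 = v))
      (A.filter (fun a => a.1 = v ∧ a.2 ∈ Mb))
    have h5 := Finset.card_union_le
      (A.filter (fun a => a.1 = v ∧ a ∉ U ∧ a ∉ S ∧ a.2 ∉ Mb ∧ a.2 ∉ H) ∪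
          U.filter (fun a => a.1 = v)) (S.filter (fun a => a.1 = v))
    have h6 := Finset.card_union_le
      (A.filter (fun a => a.1 = v ∧ a ∉ U ∧ a ∉ S ∧ a.2 ∉ Mb ∧ a.2 ∉ H))
      (U.filter (fun a => a.1 = v))
    have h7 := GEO_to A v Mb
    have h8 := GEO_to A v H
    have h9 : outDeg A v = (A.filter (fun a => a.1 = v)).card := rfl
    have h10 : outDeg U v = (U.filter (fun a => a.1 = v)).card := rfl
    have h11 : outDeg S v = (S.filter (fun a => a.1 = v)).card := rfl
    omega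
  generalize Fintype.card V = n at *
  generalize outDeg A v = o at *
  generalize Mb.card = m at *
  generalize H.card = k at *
  have h12 : n ≤ x * (f + P + t + m + k) := hd.trans (Nat.mul_le_mul_left x h1)
  have h13 : x * (f + 1) ≤ x * ℓ := Nat.mul_le_mul_left x hcon
  nlinarith

theorem exists_surj {E : Type} [DecidableEq E] (ℓ : ℕ) [NeZero ℓ] (F : Finset E)
    (h : ℓ ≤ F.card) : ∃ g : E → ZMod ℓ, ∀ κ, ∃ a ∈ F, g a = κ := by
  have h1 : Fintype.card (ZMod ℓ) ≤ Fintype.card F := by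
    rw [ZMod.card, Fintype.card_coe]
    exact h
  obtain ⟨f⟩ := Function.Embedding.nonempty_of_card_le h1
  have hinj : Function.Injective (fun κ => (f κ : E)) := fun a b hab => f.injective (Subtype.ext hab)
  refine ⟨Function.extend (fun κ => (f κ : E)) id 0, fun κ => ⟨f κ, (f κ).2, ?_⟩⟩
  exact hinj.extend_apply id 0 κ

end Pool.Agent.H68.OS
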