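import Pool.Agent.H68.BJ.Defs

/-!
# Project MP_e82622_OS (helper68), module HUB: a small set of hubs hit by almost all vertices

Proof of `hub`.  `n = #V`, `q = 1 - 1/ℓ ∈ [0, 1)`, `d v H = #{arcs of A from v to H}`
(`(A.filter (fun a => a.1 = v ∧ a.2 ∈ H)).card`), `Φ H = ∑ v ∈ M, q ^ (d v H)`.  Induction on `j ≤ h`:
there is `H` with `#H ≤ j` and `Φ H ≤ n (1 - 1/(2 x ℓ))^j`.
`j = 0`: `H = ∅`, `Φ ∅ = #M ≤ n`.  Step: given `H`, `#H ≤ j < h`.  If `Φ H = 0` take the same `H`
(or note the inequality below is trivial; also if `n = 0` everything is `0`).  Double counting: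
`∑_{y ∉ H} ∑_{v ∈ M, (v, y) ∈ A} q^(d v H) = ∑_{v ∈ M} q^(d v H) * #{y ∉ H | (v, y) ∈ A}` and
`#{y ∉ H | (v, y) ∈ A} ≥ outDeg A v - #H`, so `x * (that) ≥ n - x #H ≥ n / 2` (from `2 x h ≤ n`).
So `x * ∑_{y ∉ H} g y ≥ (n/2) Φ H` with `g y = ∑_{v ∈ M, (v, y) ∈ A} q^(d v H)`, hence (there are at
most `n` summands) some `y ∉ H` has `2 x g y ≥ Φ H`.  Put `H' = insert y H`; for `v` with
`(v, y) ∈ A` the exponent grows by one, otherwise it is unchanged:
`Φ H' = Φ H - (1 - q) g y = Φ H - g y / ℓ ≤ Φ H (1 - 1/(2 x ℓ))`.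
-/

set_option autoImplicit false

namespace Pool.Agent.H68.OS

open Pool.Agent.H68.BJ

private theorem HUB_filter {V : Type} [DecidableEq V] (A : Finset (V × V)) (H : Finset V) (v y : V)
    (hy : y ∉ H) : (A.filter (fun a => a.1 = v ∧ a.2 ∈ insert y H)).card =
      (A.filter (fun a => a.1 = v ∧ a.2 ∈ H)).card + (if (v, y) ∈ A then 1 else 0) := by
  have h1 : A.filter (fun a => a.1 = v ∧ a.2 ∈ insert y H) =
      A.filter (fun a => a.1 = v ∧ a.2 ∈ H) ∪ A.filter (fun a => a = (v, y)) := by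
    ext ⟨p, r⟩
    simp only [Finset.mem_filter, Finset.mem_union, Finset.mem_insert, Prod.mk.injEq]
    tauto
  have h2 : Disjoint (A.filter (fun a => a.1 = v ∧ a.2 ∈ H)) (A.filter (fun a => a = (v, y))) := by
    rw [Finset.disjoint_left]
    rintro ⟨p, r⟩ h3 h4
    simp only [Finset.mem_filter, Prod.mk.injEq] at h3 h4
    obtain ⟨-, -, h5⟩ := h3
    obtain ⟨-, -, h6⟩ := h4
    rw [h6] at h5
    exact hy h5
  rw [h1, Finset.card_union_of_disjoint h2, Finset.filter_eq']
  split_ifs with h3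
  · rw [Finset.card_singleton]
  · rw [Finset.card_empty]

private theorem HUB_out {V : Type} [Fintype V] [DecidableEq V] (A : Finset (V × V)) (H : Finset V) (v : V) :
    (outDeg A v : ℝ) ≤ ((Finset.univ.filter (fun y : V => y ∉ H ∧ (v, y) ∈ A)).card : ℝ) + (H.card : ℝ) := by
  have h1 : outDeg A v ≤ (Finset.univ.filter (fun y : V => y ∉ H ∧ (v, y) ∈ A)).card + H.card := by
    unfold outDeg
    have h2 : (A.filter (fun a => a.1 = v)).card ≤
        ((Finset.univ.filter (fun y : V => y ∉ H ∧ (v, y) ∈ A)) ∪ H).card := by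
      refine Finset.card_le_card_of_injOn (fun a => a.2) ?_ ?_
      · rintro ⟨p, r⟩ hp
        simp only [Finset.coe_filter, Set.mem_setOf_eq] at hp
        obtain ⟨hp1, rfl⟩ := hp
        simp only [Finset.coe_union, Set.mem_union, Finset.mem_coe, Finset.mem_filter, Finset.mem_univ,
          true_and]
        by_cases hr : r ∈ H
        · exact Or.inr hr
        · exact Or.inl ⟨hr, hp1⟩
      · rintro ⟨p, r⟩ hp ⟨p', r'⟩ hp' heq
        simp only [Finset.coe_filter, Set.mem_setOf_eq] at hp hp'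
        simp only at heq
        rw [hp.2, hp'.2, heq]
    exact h2.trans (Finset.card_union_le _ _)
  exact_mod_cast h1

theorem hub {V : Type} [Fintype V] [DecidableEq V] (ℓ x h : ℕ) (hℓ : 1 ≤ ℓ) (hx : 1 ≤ x)
    (A : Finset (V × V)) (M : Finset V) (hM : ∀ v ∈ M, Fintype.card V ≤ x * outDeg A v)
    (hh : 2 * x * h ≤ Fintype.card V) :
    ∃ H : Finset V, H.card ≤ h ∧
      ∑ v ∈ M, (1 - 1 / (ℓ : ℝ)) ^ (A.filter (fun a => a.1 = v ∧ a.2 ∈ H)).card ≤
        (Fintype.card V : ℝ) * (1 - 1 / (2 * (x : ℝ) * ℓ)) ^ h := by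
  have hℓ0 : (0 : ℝ) < ℓ := by exact_mod_cast hℓ
  have hℓ1 : (1 : ℝ) ≤ ℓ := by exact_mod_cast hℓ
  have hx0 : (0 : ℝ) < x := by exact_mod_cast hx
  have hx1 : (1 : ℝ) ≤ x := by exact_mod_cast hx
  obtain ⟨q, hq⟩ : ∃ q : ℝ, q = 1 - 1 / (ℓ : ℝ) := ⟨_, rfl⟩
  have hq0 : 0 ≤ q := by
    rw [hq, sub_nonneg, div_le_one hℓ0]
    exact hℓ1
  rw [← hq]
  obtain ⟨Φ, hΦ⟩ : ∃ Φ : Finset V → ℝ, ∀ H, Φ H =
      ∑ v ∈ M, q ^ (A.filter (fun a => a.1 = v ∧ a.2 ∈ H)).card := ⟨_, fun _ => rfl⟩
  have hΦ0 : ∀ H, 0 ≤ Φ H := fun H => by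
    rw [hΦ]
    exact Finset.sum_nonneg fun v _ => pow_nonneg hq0 _
  have hr0 : (0 : ℝ) ≤ 1 - 1 / (2 * (x : ℝ) * ℓ) := by
    rw [sub_nonneg, div_le_one (by positivity)]
    nlinarith
  have key : ∀ j, j ≤ h → ∃ H : Finset V, H.card ≤ j ∧
      Φ H ≤ (Fintype.card V : ℝ) * (1 - 1 / (2 * (x : ℝ) * ℓ)) ^ j := by
    intro j
    induction j with
    | zero =>
      intro _
      refine ⟨∅, by simp, ?_⟩
      rw [hΦ, pow_zero, mul_one]
      have h1 : ∑ v ∈ M, q ^ (A.filter (fun a => a.1 = v ∧ a.2 ∈ (∅ : Finset V))).card = (M.card : ℝ) := by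
        rw [Finset.card_eq_sum_ones]
        push_cast
        refine Finset.sum_congr rfl fun v _ => ?_
        rw [Finset.filter_false_of_mem (fun a _ => by simp), Finset.card_empty, pow_zero]
      rw [h1]
      exact_mod_cast Finset.card_le_univ M
    | succ j ih =>
      intro hj
      obtain ⟨H, hH, hHΦ⟩ := ih (by omega)
      obtain ⟨g, hg⟩ : ∃ g : V → ℝ, ∀ y, g y = ∑ v ∈ M, (if (v, y) ∈ A then
        q ^ (A.filter (fun a => a.1 = v ∧ a.2 ∈ H)).card else 0) := ⟨_, fun _ => rfl⟩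
      have hsw : ∑ y ∈ Finset.univ.filter (fun y : V => y ∉ H), g y = ∑ v ∈ M,
          q ^ (A.filter (fun a => a.1 = v ∧ a.2 ∈ H)).card *
            ((Finset.univ.filter (fun y : V => y ∉ H ∧ (v, y) ∈ A)).card : ℝ) := by
        simp only [hg]
        rw [Finset.sum_comm]
        refine Finset.sum_congr rfl fun v _ => ?_
        rw [← Finset.sum_filter, Finset.sum_const, nsmul_eq_mul, mul_comm, Finset.filter_filter]
      have hdc : (Fintype.card V : ℝ) / 2 * Φ H ≤
          x * ∑ y ∈ Finset.univ.filter (fun y : V => y ∉ H), g y := by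
        rw [hsw, hΦ, Finset.mul_sum, Finset.mul_sum]
        refine Finset.sum_le_sum fun v hv => ?_
        have h1 := HUB_out A H v
        have h2 : (Fintype.card V : ℝ) ≤ x * (outDeg A v : ℝ) := by exact_mod_cast hM v hv
        have h3 : 2 * (x : ℝ) * h ≤ (Fintype.card V : ℝ) := by exact_mod_cast hh
        have h4 : (H.card : ℝ) ≤ h := by
          have : H.card ≤ h := by omega
          exact_mod_cast this
        have h5 : (Fintype.card V : ℝ) / 2 ≤
            x * ((Finset.univ.filter (fun y : V => y ∉ H ∧ (v, y) ∈ A)).card : ℝ) := by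
          have h6 : (x : ℝ) * (outDeg A v : ℝ) ≤
              x * (((Finset.univ.filter (fun y : V => y ∉ H ∧ (v, y) ∈ A)).card : ℝ) + (H.card : ℝ)) :=
            mul_le_mul_of_nonneg_left h1 hx0.le
          have h7 : (x : ℝ) * (H.card : ℝ) ≤ x * h := mul_le_mul_of_nonneg_left h4 hx0.le
          linarith
        have h8 := mul_le_mul_of_nonneg_right h5
          (pow_nonneg hq0 (A.filter (fun a => a.1 = v ∧ a.2 ∈ H)).card)
        linarith
      by_cases hn : Fintype.card V = 0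
      · refine ⟨H, by omega, ?_⟩
        have h1 : Φ H ≤ 0 := by
          rw [hn, Nat.cast_zero, zero_mul] at hHΦ
          exact hHΦ
        rw [hn, Nat.cast_zero, zero_mul]
        exact h1
      have hn0 : (0 : ℝ) < Fintype.card V := by
        have : 0 < Fintype.card V := Nat.pos_of_ne_zero hn
        exact_mod_cast this
      have hex : ∃ y, y ∉ H ∧ Φ H ≤ 2 * x * g y := by
        by_contra hcon
        push Not at hcon
        have hne : (Finset.univ.filter (fun y : V => y ∉ H)).Nonempty := by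
          rw [Finset.filter_nonempty_iff]
          by_contra hc
          push Not at hc
          have h1 : Fintype.card V ≤ H.card := by
            rw [← Finset.card_univ]
            exact Finset.card_le_card fun y _ => hc y (Finset.mem_univ y)
          have h2 : 2 * x * h ≥ 2 * h := by nlinarith
          omega
        have h1 : ∑ y ∈ Finset.univ.filter (fun y : V => y ∉ H), 2 * x * g y <
            ∑ y ∈ Finset.univ.filter (fun y : V => y ∉ H), Φ H :=
          Finset.sum_lt_sum_of_nonempty hne fun y hy => hcon y (Finset.mem_filter.1 hy).2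
        rw [← Finset.mul_sum, Finset.sum_const, nsmul_eq_mul] at h1
        have h2 : ((Finset.univ.filter (fun y : V => y ∉ H)).card : ℝ) ≤ Fintype.card V := by
          exact_mod_cast Finset.card_le_univ _
        have h3 := mul_le_mul_of_nonneg_right h2 (hΦ0 H)
        linarith
      obtain ⟨y, hy, hyg⟩ := hex
      refine ⟨insert y H, by rw [Finset.card_insert_of_notMem hy]; omega, ?_⟩
      have hnew : Φ (insert y H) = Φ H - (1 - q) * g y := by
        rw [hΦ, hΦ, hg, Finset.mul_sum, ← Finset.sum_sub_distrib]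
        refine Finset.sum_congr rfl fun v _ => ?_
        rw [HUB_filter A H v y hy]
        split_ifs with h1
        · rw [pow_succ]
          ring
        · rw [add_zero, mul_zero, sub_zero]
      rw [hnew, pow_succ]
      have h1 : (1 - q) * g y ≥ Φ H * (1 / (2 * (x : ℝ) * ℓ)) := by
        have h2 : 1 - q = 1 / (ℓ : ℝ) := by rw [hq]; ring
        rw [h2]
        have h3 : Φ H * (1 / (2 * (x : ℝ) * ℓ)) ≤ (2 * x * g y) * (1 / (2 * (x : ℝ) * ℓ)) :=
          mul_le_mul_of_nonneg_right hyg (by positivity)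
        have h4 : (2 * x * g y) * (1 / (2 * (x : ℝ) * ℓ)) = 1 / (ℓ : ℝ) * g y := by
          field_simp
        rw [h4] at h3
        exact h3
      calc Φ H - (1 - q) * g y ≤ Φ H * (1 - 1 / (2 * (x : ℝ) * ℓ)) := by linarith
        _ ≤ (Fintype.card V : ℝ) * (1 - 1 / (2 * (x : ℝ) * ℓ)) ^ j * (1 - 1 / (2 * (x : ℝ) * ℓ)) :=
          mul_le_mul_of_nonneg_right hHΦ hr0
        _ = _ := by ring
  obtain ⟨H, h1, h2⟩ := key h le_rfl
  rw [hΦ] at h2
  exact ⟨H, h1, h2⟩

end Pool.Agent.H68.OS
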