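import Pool.Agent.H68.BJ.FIN

/-!
# Project MP_e82622_OS (helper68), module LRK: ranking and hubs of a set of small independence number

Proof of `low_hubs`.  Put `c = ℓ * m`, `φ = wt ℓ c` (file FIN: `wt_anti`, `wt_nonneg`, `wt_sum`), `S = c + ℓ`.
(1) As in the first half of the proof of `out_ranking` (file `Pool/Agent/H68/BJ/OUT.lean`, copy it):
`median (restr A L)` gives `ρ`; `indep_of_few` and `abel_bound` (with `α = x`) give
`∑ v ∈ L, φ (fwd (restr A L) ρ v) ≤ 2 x S` (an independent set of `restr A L` inside `L` is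
independent in `A`).
(2) `Z = L.filter (fun v => fwd (restr A L) ρ v < c)`.  On `Z` the weight is `1`, so `#Z ≤ 2 x S =
2 x (ℓ (m + 1))` (a bound between casts of natural numbers).  On `L \ Z` : `q^(fwd) = q^c * φ (fwd)`,
so the sum is at most `ℓ q^c * 2 x S`, and `q^c = (q^ℓ)^m ≤ (1/2)^m` (`q_pow_le`).  See `hub_bounds`
in FIN (the same computation over `univ`).
-/

set_option autoImplicit false

namespace Pool.Agent.H68.OS

open Pool.Agent.H68.BJ

theorem low_hubs {V : Type} [Fintype V] [DecidableEq V] (A : Finset (V × V))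
    (hA : ∀ v : V, (v, v) ∉ A) (x : ℕ) (L : Finset V)
    (hI : ∀ I : Finset V, I ⊆ L → Indep A I → I.card ≤ x) (ℓ m : ℕ) (hℓ : 1 ≤ ℓ) :
    ∃ (ρ : V → ℤ) (Z : Finset V), Z ⊆ L ∧ Z.card ≤ 2 * x * (ℓ * (m + 1)) ∧
      ∑ v ∈ L \ Z, (ℓ : ℝ) * (1 - 1 / (ℓ : ℝ)) ^ (fwd (restr A L) ρ v) ≤
        (1 / 2) ^ m * (2 * (ℓ : ℝ) ^ 2 * x * (m + 1)) := by
  obtain ⟨c, hc⟩ : ∃ c, c = ℓ * m := ⟨_, rfl⟩
  have hc' : (c : ℝ) = ℓ * m := by rw [hc]; push_cast; ring
  obtain ⟨ρ₀, hinj, hb⟩ := median (restr A L) (by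
    intro v hv
    exact hA v (Finset.mem_filter.1 hv).1)
  have h1 : ∑ v ∈ L, wt ℓ c (fwd (restr A L) ρ₀ v) ≤ 2 * x * ((c : ℝ) + ℓ) := by
    apply abel_bound L _ x (wt ℓ c) _ (wt_anti ℓ c hℓ) (wt_nonneg ℓ c hℓ) (wt_sum ℓ c hℓ)
    intro j
    obtain ⟨I, hIZ, hind, hcard⟩ := indep_of_few (restr A L) ρ₀ hinj hb j
      (L.filter (fun v => fwd (restr A L) ρ₀ v ≤ j)) (fun v hv => (Finset.mem_filter.1 hv).2)
    have hIL : ∀ v ∈ I, v ∈ L := fun v hv => (Finset.mem_filter.1 (hIZ hv)).1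
    have hIx : I.card ≤ x := by
      apply hI I hIL
      intro u hu v hv huv hmem
      exact hind u hu v hv huv (Finset.mem_filter.2 ⟨hmem, hIL u hu, hIL v hv⟩)
    exact hcard.trans (Nat.mul_le_mul_left _ hIx)
  have hq := q_nonneg ℓ hℓ
  refine ⟨ρ₀, L.filter (fun v => fwd (restr A L) ρ₀ v < c), Finset.filter_subset _ _, ?_, ?_⟩
  · have h2 : ((L.filter (fun v => fwd (restr A L) ρ₀ v < c)).card : ℝ) ≤
        2 * x * ((c : ℝ) + ℓ) := by
      calc ((L.filter (fun v => fwd (restr A L) ρ₀ v < c)).card : ℝ)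
          = ∑ v ∈ L.filter (fun v => fwd (restr A L) ρ₀ v < c), (1 : ℝ) := by simp
        _ = ∑ v ∈ L.filter (fun v => fwd (restr A L) ρ₀ v < c),
              wt ℓ c (fwd (restr A L) ρ₀ v) := by
            apply Finset.sum_congr rfl
            intro v hv
            rw [Finset.mem_filter] at hv
            unfold wt
            rw [Nat.sub_eq_zero_of_le hv.2.le, pow_zero]
        _ ≤ ∑ v ∈ L, wt ℓ c (fwd (restr A L) ρ₀ v) := by
            apply Finset.sum_le_sum_of_subset_of_nonneg (Finset.filter_subset _ _)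
            intro v _ _
            exact wt_nonneg ℓ c hℓ _
        _ ≤ _ := h1
    have h3 : (2 : ℝ) * x * ((c : ℝ) + ℓ) = ((2 * x * (ℓ * (m + 1)) : ℕ) : ℝ) := by
      rw [hc']
      push_cast
      ring
    rw [h3] at h2
    exact_mod_cast h2
  · have h4 : (1 - 1 / (ℓ : ℝ)) ^ c ≤ (1 / 2) ^ m := by
      rw [hc, pow_mul]
      exact pow_le_pow_left₀ (pow_nonneg hq _) (q_pow_le ℓ hℓ) m
    calc ∑ v ∈ L \ L.filter (fun v => fwd (restr A L) ρ₀ v < c),
            (ℓ : ℝ) * (1 - 1 / (ℓ : ℝ)) ^ (fwd (restr A L) ρ₀ v)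
        = ∑ v ∈ L \ L.filter (fun v => fwd (restr A L) ρ₀ v < c),
            (ℓ : ℝ) * (1 - 1 / (ℓ : ℝ)) ^ c * wt ℓ c (fwd (restr A L) ρ₀ v) := by
          apply Finset.sum_congr rfl
          intro v hv
          rw [Finset.mem_sdiff, Finset.mem_filter] at hv
          have hv' : c ≤ fwd (restr A L) ρ₀ v := by
            by_contra hcon
            exact hv.2 ⟨hv.1, by omega⟩
          unfold wt
          rw [mul_assoc, ← pow_add]
          congr 2
          omega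
      _ = ℓ * (1 - 1 / (ℓ : ℝ)) ^ c * ∑ v ∈ L \ L.filter (fun v => fwd (restr A L) ρ₀ v < c),
            wt ℓ c (fwd (restr A L) ρ₀ v) := by
          rw [Finset.mul_sum]
      _ ≤ ℓ * (1 - 1 / (ℓ : ℝ)) ^ c * ∑ v ∈ L, wt ℓ c (fwd (restr A L) ρ₀ v) := by
          apply mul_le_mul_of_nonneg_left _ (by positivity)
          apply Finset.sum_le_sum_of_subset_of_nonneg Finset.sdiff_subset
          intro v _ _
          exact wt_nonneg ℓ c hℓ _
      _ ≤ ℓ * (1 - 1 / (ℓ : ℝ)) ^ c * (2 * x * ((c : ℝ) + ℓ)) :=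
          mul_le_mul_of_nonneg_left h1 (by positivity)
      _ = (1 - 1 / (ℓ : ℝ)) ^ c * (2 * (ℓ : ℝ) ^ 2 * x * (m + 1)) := by
          rw [hc']
          ring
      _ ≤ _ := mul_le_mul_of_nonneg_right h4 (by positivity)

end Pool.Agent.H68.OS
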