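import Pool.Agent.H68.BJ.FIN

/-!
# Project MP_e82622_OS (helper68), module NUM: arithmetic of the constants
-/

set_option autoImplicit false

namespace Pool.Agent.H68.OS

open Pool.Agent.H68.BJ Finset

theorem num1 (N k : ℕ) (hk : N < 2 ^ (k + 1)) : 8 * N * (2 * k + 8 + 1) < 2 ^ (2 * k + 8) := by
  have h2 : ∀ k : ℕ, 16 * (2 * k + 9) ≤ 256 * 2 ^ k := by
    intro k
    induction k with
    | zero => norm_num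
    | succ k ih => rw [pow_succ]; have : 1 ≤ 2 ^ k := Nat.one_le_two_pow; omega
  have h3 := h2 k
  have h4 : (2 : ℕ) ^ (2 * k + 8) = 2 ^ k * (256 * 2 ^ k) := by ring
  rw [h4]
  have h5 : (2 : ℕ) ^ (k + 1) = 2 * 2 ^ k := by ring
  rw [h5] at hk
  calc 8 * N * (2 * k + 8 + 1) < 8 * (2 * 2 ^ k) * (2 * k + 8 + 1) := by
        apply Nat.mul_lt_mul_of_pos_right _ (by omega)
        omega
    _ = 2 ^ k * (16 * (2 * k + 9)) := by ring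
    _ ≤ 2 ^ k * (256 * 2 ^ k) := Nat.mul_le_mul_left _ h3

/-- The failure probabilities in `L` sum to less than `1/2`. -/
theorem num_low (ℓ x k : ℕ) (hk : ℓ ^ 2 * x < 2 ^ (k + 1)) :
    ((1 : ℝ) / 2) ^ (2 * k + 8) * (2 * (ℓ : ℝ) ^ 2 * x * ((2 * k + 8 : ℕ) + 1)) +
      ((1 : ℝ) / 2) ^ (2 * k + 8) * (2 * (ℓ : ℝ) ^ 2 * x * ((2 * k + 8 : ℕ) + 1)) < 1 / 2 := by
  have h1 := num1 _ k hk
  have h2 : (8 : ℝ) * ((ℓ : ℝ) ^ 2 * x) * (2 * k + 8 + 1) < 2 ^ (2 * k + 8) := by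
    exact_mod_cast h1
  have h3 : ((1 : ℝ) / 2) ^ (2 * k + 8) * 2 ^ (2 * k + 8) = 1 := by
    rw [← mul_pow]; norm_num
  have h4 : (0 : ℝ) < ((1 : ℝ) / 2) ^ (2 * k + 8) := by positivity
  have h5 : ((1 : ℝ) / 2) ^ (2 * k + 8) * ((8 : ℝ) * ((ℓ : ℝ) ^ 2 * x) * (2 * k + 8 + 1)) <
      ((1 : ℝ) / 2) ^ (2 * k + 8) * 2 ^ (2 * k + 8) := mul_lt_mul_of_pos_left h2 h4
  push_cast
  nlinarith

/-- The failure probabilities in `M`, weighted by `4 x / n`. -/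
theorem num_high (ℓ x k n : ℕ) (hℓ : 1 ≤ ℓ) (hx : 1 ≤ x) (hn : 0 < n)
    (hk : ℓ ^ 2 * x < 2 ^ (k + 1)) (Φ : ℝ)
    (hΦ : Φ ≤ (n : ℝ) * (1 - 1 / (2 * (x : ℝ) * ℓ)) ^ (2 * x * ℓ * (k + 5))) :
    4 * (x : ℝ) / n * (ℓ * Φ) ≤ 1 / 4 := by
  have hℓ' : (1 : ℝ) ≤ ℓ := by exact_mod_cast hℓ
  have hx' : (1 : ℝ) ≤ x := by exact_mod_cast hx
  have hn' : (0 : ℝ) < n := by exact_mod_cast hn
  have h1 : (1 - 1 / (2 * (x : ℝ) * ℓ)) ^ (2 * x * ℓ * (k + 5)) ≤ (1 / 2) ^ (k + 5) := by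
    rw [pow_mul]
    have hpos : 1 ≤ 2 * x * ℓ := Nat.one_le_iff_ne_zero.2 (by positivity)
    have h2 := q_pow_le (2 * x * ℓ) hpos
    have h3 := q_nonneg (2 * x * ℓ) hpos
    push_cast at h2 h3
    exact pow_le_pow_left₀ (pow_nonneg h3 _) h2 _
  have h4 : 16 * ((x : ℝ) * ℓ) ≤ 2 ^ (k + 5) := by
    have h5 : ((ℓ ^ 2 * x : ℕ) : ℝ) < ((2 ^ (k + 1) : ℕ) : ℝ) := by exact_mod_cast hk
    push_cast at h5
    have h6 : (x : ℝ) * ℓ ≤ (ℓ : ℝ) ^ 2 * x := by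
      have : (x : ℝ) * ℓ * 1 ≤ x * ℓ * ℓ := mul_le_mul_of_nonneg_left hℓ' (by positivity)
      nlinarith
    have h7 : (2 : ℝ) ^ (k + 5) = 16 * 2 ^ (k + 1) := by ring
    rw [h7]
    linarith
  have h8 : ((1 : ℝ) / 2) ^ (k + 5) * 2 ^ (k + 5) = 1 := by
    rw [← mul_pow]; norm_num
  have h9 : (0 : ℝ) < ((1 : ℝ) / 2) ^ (k + 5) := by positivity
  have h10 : ((1 : ℝ) / 2) ^ (k + 5) * (16 * ((x : ℝ) * ℓ)) ≤ 1 := by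
    calc ((1 : ℝ) / 2) ^ (k + 5) * (16 * ((x : ℝ) * ℓ)) ≤ (1 / 2) ^ (k + 5) * 2 ^ (k + 5) :=
          mul_le_mul_of_nonneg_left h4 h9.le
      _ = 1 := h8
  have h11 : Φ ≤ n * (1 / 2) ^ (k + 5) := hΦ.trans (mul_le_mul_of_nonneg_left h1 hn'.le)
  have h12 : 4 * (x : ℝ) / n * (ℓ * Φ) ≤ 4 * (x : ℝ) / n * (ℓ * (n * (1 / 2) ^ (k + 5))) := by
    apply mul_le_mul_of_nonneg_left _ (by positivity)
    exact mul_le_mul_of_nonneg_left h11 (by positivity)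
  have h13 : 4 * (x : ℝ) / n * (ℓ * (n * (1 / 2) ^ (k + 5))) =
      4 * ((1 / 2) ^ (k + 5) * ((x : ℝ) * ℓ)) := by
    field_simp
  rw [h13] at h12
  nlinarith

/-- The number of unit paths. -/
theorem num_paths (ℓ x k zt zs h : ℕ) (h1 : zt ≤ 2 * x * (ℓ * (2 * k + 8 + 1)))
    (h2 : zs ≤ 2 * x * (ℓ * (2 * k + 8 + 1))) (h3 : h ≤ 2 * x * ℓ * (k + 5)) :
    ℓ * (zt + zs + 2 * h) ≤ ℓ ^ 2 * x * (12 * k + 56) := by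
  calc ℓ * (zt + zs + 2 * h) ≤ ℓ * (2 * x * (ℓ * (2 * k + 8 + 1)) +
        2 * x * (ℓ * (2 * k + 8 + 1)) + 2 * (2 * x * ℓ * (k + 5))) := by
        apply Nat.mul_le_mul_left
        omega
    _ = ℓ ^ 2 * x * (12 * k + 56) := by ring

theorem num_le (ℓ x : ℕ) (hℓ : 1 ≤ ℓ) (hx : 1 ≤ x) :
    ℓ ≤ ℓ ^ 2 * x ∧ x * ℓ ≤ ℓ ^ 2 * x ∧ 1 ≤ ℓ ^ 2 * x := by
  refine ⟨?_, ?_, ?_⟩
  · calc ℓ = ℓ * 1 * 1 := by ring
      _ ≤ ℓ * ℓ * x := Nat.mul_le_mul (Nat.mul_le_mul_left _ hℓ) hx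
      _ = ℓ ^ 2 * x := by ring
  · calc x * ℓ = x * ℓ * 1 := by ring
      _ ≤ x * ℓ * ℓ := Nat.mul_le_mul_left _ hℓ
      _ = ℓ ^ 2 * x := by ring
  · exact Nat.one_le_iff_ne_zero.2 (by positivity)

/-- The parameter `t = n / (4 x)` of the thin forests. -/
theorem num_thin (ℓ x k n : ℕ) (hℓ : 1 ≤ ℓ) (hx : 1 ≤ x)
    (hn : 2 * x * (ℓ ^ 2 * x * (24 * k + 132)) ≤ n) :
    ℓ * n < (5 * x * ℓ + 1) * (n / (4 * x)) ∧ 4 * x * (n / (4 * x)) ≤ n := by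
  obtain ⟨h1, h2, h3⟩ := num_le ℓ x hℓ hx
  refine ⟨?_, Nat.mul_div_le _ _⟩
  set t := n / (4 * x) with ht
  have h4 : n < 4 * x * (t + 1) := by
    rw [ht]
    exact Nat.lt_mul_div_succ n (by omega)
  have h5 : 4 ≤ t := by
    rw [ht, Nat.le_div_iff_mul_le (by omega)]
    refine le_trans ?_ hn
    calc 4 * (4 * x) = 2 * x * (1 * 8) := by ring
      _ ≤ 2 * x * (ℓ ^ 2 * x * (24 * k + 132)) :=
        Nat.mul_le_mul_left _ (Nat.mul_le_mul h3 (by omega))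
  calc ℓ * n ≤ ℓ * (4 * x * (t + 1)) := Nat.mul_le_mul_left _ h4.le
    _ = x * ℓ * (4 * t + 4) := by ring
    _ ≤ x * ℓ * (5 * t) := Nat.mul_le_mul_left _ (by omega)
    _ = 5 * x * ℓ * t := by ring
    _ < (5 * x * ℓ + 1) * t := by
        rw [add_mul, one_mul]
        omega

theorem num_deg (ℓ x k K d p : ℕ) (hℓ : 1 ≤ ℓ) (hx : 1 ≤ x) (hK : K = ℓ ^ 2 * x * (24 * k + 132))
    (hp : p ≤ ℓ ^ 2 * x * (12 * k + 56)) (hd : K ≤ d + p) : 2 * (5 * x * ℓ) + ℓ < d := by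
  obtain ⟨h1, h2, h3⟩ := num_le ℓ x hℓ hx
  have h4 : K = ℓ ^ 2 * x * (12 * k + 56) + ℓ ^ 2 * x * (12 * k + 76) := by rw [hK]; ring
  have h5 : ℓ ^ 2 * x * (12 * k + 76) = ℓ ^ 2 * x * (12 * k) + ℓ ^ 2 * x * 76 := by ring
  have h6 : 2 * (5 * x * ℓ) = 10 * (x * ℓ) := by ring
  rw [h6]
  have h7 : 0 ≤ ℓ ^ 2 * x * (12 * k) := Nat.zero_le _
  omega

theorem num_free (ℓ x k n p h : ℕ) (hℓ : 1 ≤ ℓ) (hx : 1 ≤ x)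
    (hn : 2 * x * (ℓ ^ 2 * x * (24 * k + 132)) ≤ n)
    (hp : p ≤ ℓ ^ 2 * x * (12 * k + 56)) (hh : h ≤ 2 * x * ℓ * (k + 5)) :
    2 * x * (p + h + ℓ) ≤ n := by
  obtain ⟨h1, h2, h3⟩ := num_le ℓ x hℓ hx
  refine le_trans (Nat.mul_le_mul_left _ ?_) hn
  have h4 : 2 * x * ℓ * (k + 5) ≤ ℓ ^ 2 * x * (2 * k + 10) := by
    calc 2 * x * ℓ * (k + 5) = x * ℓ * (2 * k + 10) := by ring
      _ ≤ _ := Nat.mul_le_mul_right _ h2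
  calc p + h + ℓ ≤ ℓ ^ 2 * x * (12 * k + 56) + ℓ ^ 2 * x * (2 * k + 10) + ℓ ^ 2 * x := by omega
    _ = ℓ ^ 2 * x * (14 * k + 67) := by ring
    _ ≤ _ := Nat.mul_le_mul_left _ (by omega)

theorem num_hub (ℓ x k n : ℕ) (hℓ : 1 ≤ ℓ) (hx : 1 ≤ x)
    (hn : 2 * x * (ℓ ^ 2 * x * (24 * k + 132)) ≤ n) :
    2 * x * (2 * x * ℓ * (k + 5)) ≤ n := by
  obtain ⟨h1, h2, h3⟩ := num_le ℓ x hℓ hx
  refine le_trans (Nat.mul_le_mul_left _ ?_) hn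
  calc 2 * x * ℓ * (k + 5) = x * ℓ * (2 * k + 10) := by ring
    _ ≤ ℓ ^ 2 * x * (2 * k + 10) := Nat.mul_le_mul_right _ h2
    _ ≤ _ := Nat.mul_le_mul_left _ (by omega)

theorem num_total (ℓ x k K p : ℕ) (hℓ : 1 ≤ ℓ) (hx : 1 ≤ x) (hK : K = ℓ ^ 2 * x * (24 * k + 132))
    (hp : p ≤ ℓ ^ 2 * x * (12 * k + 56)) : p + ℓ ≤ K := by
  obtain ⟨h1, h2, h3⟩ := num_le ℓ x hℓ hx
  have h4 : ℓ ^ 2 * x * (12 * k + 56) + ℓ ^ 2 * x * 1 ≤ K := by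
    rw [hK, ← mul_add]
    exact Nat.mul_le_mul_left _ (by omega)
  omega

end Pool.Agent.H68.OS
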