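import Pool.Agent.H68.BJ.FIN

/-!
# Project MP_e82622_OS (helper68), module PSY: arc-disjoint paths and branchings

Proof of `path_system`: apply `edmonds` (file EDM) to the `m = #ι + #ι'` roots `src y` (`y : ι`) and
`rt i` (`i : ι'`), i.e. with an equivalence `e : ι ⊕ ι' ≃ Fin (Fintype.card (ι ⊕ ι'))`.  The
hypothesis of `edmonds` holds: for `X = univ` the left side is `0`; for other nonempty `X` it is at
most `m ≤ K ≤ dIn A X`.  Put `O i = B (e (inr i))`, and let `P y ⊆ B (e (inl y))` be the path from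
`src y` to `tgt y` given by `exists_path` (file PTH).  All disjointness from that of the `B`'s.
-/

set_option autoImplicit false

namespace Pool.Agent.H68.OS

open Pool.Agent.H68.BJ

theorem path_system {V ι ι' : Type} [Fintype V] [DecidableEq V] [Fintype ι] [Fintype ι'] (K : ℕ)
    (A : Finset (V × V)) (hcut : ∀ X : Finset V, X.Nonempty → X ≠ Finset.univ → K ≤ dIn A X)
    (hK : Fintype.card ι + Fintype.card ι' ≤ K) (src tgt : ι → V) (rt : ι' → V) :
    ∃ (P : ι → Finset (V × V)) (O : ι' → Finset (V × V)),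
      (∀ y, P y ⊆ A) ∧ (∀ i, O i ⊆ A) ∧ (∀ y, Reach (P y) (src y) (tgt y)) ∧
      (∀ i v, Reach (O i) (rt i) v) ∧
      (∀ y, ∀ a ∈ P y, ∀ b ∈ P y, a.1 = b.1 → a = b) ∧
      (∀ y, ∀ a ∈ P y, ∀ b ∈ P y, a.2 = b.2 → a = b) ∧
      (∀ y y' a, a ∈ P y → a ∈ P y' → y = y') ∧
      (∀ i i' a, a ∈ O i → a ∈ O i' → i = i') ∧ ∀ y i a, a ∈ P y → a ∉ O i := by
  have e : (ι ⊕ ι') ≃ Fin (Fintype.card ι + Fintype.card ι') :=
    Fintype.equivFinOfCardEq (by simp)
  obtain ⟨B, hBA, hBd, hBr⟩ := edmonds (Fintype.card ι + Fintype.card ι') A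
    (fun j => Sum.elim src rt (e.symm j)) (by
      intro X hX
      by_cases hu : X = Finset.univ
      · subst hu
        simp
      · refine le_trans (Finset.card_filter_le _ _) ?_
        rw [Finset.card_univ, Fintype.card_fin]
        exact hK.trans (hcut X hX hu))
  have hP : ∀ y : ι, ∃ P : Finset (V × V), P ⊆ B (e (Sum.inl y)) ∧ Reach P (src y) (tgt y) ∧
      (∀ a ∈ P, ∀ b ∈ P, a.1 = b.1 → a = b) ∧ (∀ a ∈ P, ∀ b ∈ P, a.2 = b.2 → a = b) := by
    intro y
    refine exists_path _ _ _ ?_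
    have h := hBr (e (Sum.inl y)) (tgt y)
    simpa using h
  choose P hPB hPr hP1 hP2 using hP
  have hdis : ∀ (s s' : ι ⊕ ι') (a : V × V), a ∈ B (e s) → a ∈ B (e s') → s = s' := by
    intro s s' a ha ha'
    by_contra hne
    exact Finset.disjoint_left.1 (hBd (e s) (e s') (fun h => hne (e.injective h))) ha ha'
  refine ⟨P, fun i => B (e (Sum.inr i)), fun y => (hPB y).trans (hBA _), fun i => hBA _, hPr, ?_, hP1,
    hP2, ?_, ?_, ?_⟩
  · intro i v
    have h := hBr (e (Sum.inr i)) v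
    simpa using h
  · intro y y' a ha ha'
    exact Sum.inl_injective (hdis _ _ a (hPB y ha) (hPB y' ha'))
  · intro i i' a ha ha'
    exact Sum.inr_injective (hdis _ _ a ha ha')
  · intro y i a ha ha'
    exact absurd (hdis _ _ a (hPB y ha) ha') (by simp)

end Pool.Agent.H68.OS
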