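import Pool.Agent.H68.OS.TH1
import Pool.Agent.H68.BJ.FIN

/-!
# Project MP_e82622_OS (helper68), module STR: one colour class is strong
-/

set_option autoImplicit false

namespace Pool.Agent.H68.OS

open Pool.Agent.H68.BJ Finset

theorem STR_restr_reach {V : Type} [DecidableEq V] (C : Finset (V × V)) (L : Finset V) (u v : V)
    (hu : u ∈ L) (h : Reach (restr C L) u v) : v ∈ L := by
  unfold Reach at h
  induction h with
  | refl => exact hu
  | tail _ hbc _ => exact (mem_filter.1 hbc).2.2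

theorem STR_restr_reach' {V : Type} [DecidableEq V] (C : Finset (V × V)) (L : Finset V) (u v : V)
    (hv : v ∈ L) (h : Reach (restr C L) u v) : u ∈ L := by
  unfold Reach at h
  induction h using Relation.ReflTransGen.head_induction_on with
  | refl => exact hv
  | head hab _ _ => exact (mem_filter.1 hab).2.1

theorem strong_of {V : Type} [Fintype V] [DecidableEq V] (C : Finset (V × V)) (r : V)
    (L H Zt Zs Mb : Finset V) (ρ τ : V → ℤ)
    (hZt : ∀ z ∈ Zt, Reach C z r) (hHt : ∀ z ∈ H, Reach C z r)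
    (hLt : ∀ v ∈ L, v ∉ Zt → ∃ w ∈ L, (v, w) ∈ C ∧ ρ v < ρ w)
    (hM : ∀ v, v ∉ L → v ∉ Mb → ∃ w ∈ H, (v, w) ∈ C)
    (hMb : ∀ v ∈ Mb, ∃ w, w ∉ Mb ∧ (v, w) ∈ C)
    (hZs : ∀ z ∈ Zs, Reach C r z) (hHs : ∀ z ∈ H, Reach C r z)
    (hLs : ∀ v ∈ L, v ∉ Zs → ∃ w ∈ L, (w, v) ∈ C ∧ τ v < τ w)
    (hO : Cover (insert r (L ∪ H)) C) (u v : V) : Reach C u v := by
  classical
  have hsub : restr C L ⊆ C := filter_subset _ _
  -- vertices of `L` reach `r`
  have hL1 : ∀ w ∈ L, Reach C w r := by
    intro w hw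
    obtain ⟨z, hz, hwz⟩ := climb (restr C L) ρ (Zt ∪ Lᶜ) (by
      intro y hy
      rw [mem_union, mem_compl, not_or, not_not] at hy
      obtain ⟨y', hy', h1, h2⟩ := hLt y hy.2 hy.1
      exact ⟨y', mem_filter.2 ⟨h1, hy.2, hy'⟩, h2⟩) w
    have hzL : z ∈ L := STR_restr_reach C L w z hw hwz
    have hz' : z ∈ Zt := by
      rcases mem_union.1 hz with h | h
      · exact h
      · exact absurd hzL (mem_compl.1 h)
    exact (Reach.mono hsub hwz).trans (hZt z hz')
  have hgood : ∀ w, w ∉ Mb → Reach C w r := by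
    intro w hw
    by_cases hwL : w ∈ L
    · exact hL1 w hwL
    · obtain ⟨z, hz, h1⟩ := hM w hwL hw
      exact Relation.ReflTransGen.head h1 (hHt z hz)
  have hall : ∀ w, Reach C w r := by
    intro w
    by_cases hw : w ∈ Mb
    · obtain ⟨z, hz, h1⟩ := hMb w hw
      exact Relation.ReflTransGen.head h1 (hgood z hz)
    · exact hgood w hw
  -- `r` reaches `L`
  have hL2 : ∀ w ∈ L, Reach C r w := by
    intro w hw
    obtain ⟨z, hz, hwz⟩ := climb_rev (restr C L) τ (Zs ∪ Lᶜ) (by
      intro y hy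
      rw [mem_union, mem_compl, not_or, not_not] at hy
      obtain ⟨y', hy', h1, h2⟩ := hLs y hy.2 hy.1
      exact ⟨y', mem_filter.2 ⟨h1, hy', hy.2⟩, h2⟩) w
    have hzL : z ∈ L := STR_restr_reach' C L z w hw hwz
    have hz' : z ∈ Zs := by
      rcases mem_union.1 hz with h | h
      · exact h
      · exact absurd hzL (mem_compl.1 h)
    exact (hZs z hz').trans (Reach.mono hsub hwz)
  have hall2 : Reach C r v := by
    obtain ⟨s, hs, h1⟩ := hO v
    rw [mem_insert, mem_union] at hs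
    rcases hs with rfl | h | h
    · exact h1
    · exact (hL2 s h).trans h1
    · exact (hHs s h).trans h1
  exact (hall u).trans hall2

end Pool.Agent.H68.OS
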