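import Pool.Agent.H68.OS.TH2
import Pool.Agent.H68.OS.HUB
import Pool.Agent.H68.OS.CN2
import Pool.Agent.H68.OS.LRK
import Pool.Agent.H68.OS.PSY
import Pool.Agent.H68.OS.GEO
import Pool.Agent.H68.OS.STR
import Pool.Agent.H68.OS.NUM

/-!
# Project MP_e82622_OS (helper68), module ASM: the case of many vertices
-/

set_option autoImplicit false

namespace Pool.Agent.H68.OS

open Pool.Agent.H68.BJ Finset

/-- All structural data of the proof, before the random colouring. -/
theorem case_two {V : Type} [Fintype V] [DecidableEq V] (ℓ x k K : ℕ) [NeZero ℓ] (hℓ : 1 ≤ ℓ)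
    (hx : 1 ≤ x) (hk : ℓ ^ 2 * x < 2 ^ (k + 1)) (hK : K = ℓ ^ 2 * x * (24 * k + 132))
    (A : Finset (V × V)) (hA : ∀ v : V, (v, v) ∉ A)
    (hcut : ∀ X : Finset V, X.Nonempty → X ≠ univ → K ≤ dIn A X)
    (hin : ∀ v, K ≤ inDeg A v)
    (hout : ∀ I : Finset V, Indep A I → (∀ v ∈ I, x * outDeg A v < Fintype.card V) → I.card ≤ x)
    (hn : 2 * x * K ≤ Fintype.card V) :
    ∃ B : ZMod ℓ → Finset (V × V), (∀ i, B i ⊆ A) ∧ (∀ i j, i ≠ j → Disjoint (B i) (B j)) ∧
      ∀ i u v, Reach (B i) u v := by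
  classical
  have hn' : 2 * x * (ℓ ^ 2 * x * (24 * k + 132)) ≤ Fintype.card V := by rw [← hK]; exact hn
  obtain ⟨hN1, hN2, hN3⟩ := num_le ℓ x hℓ hx
  have hnpos : 0 < Fintype.card V := by
    refine lt_of_lt_of_le ?_ hn'
    positivity
  obtain ⟨r⟩ : Nonempty V := Fintype.card_pos_iff.1 hnpos
  -- the sets `L` and `M`
  set L : Finset V := univ.filter (fun v => x * outDeg A v < Fintype.card V) with hL
  have hmemL : ∀ v, v ∈ L ↔ x * outDeg A v < Fintype.card V := by
    intro v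
    rw [hL, mem_filter]
    simp
  have hI : ∀ I : Finset V, I ⊆ L → Indep A I → I.card ≤ x := by
    intro I h1 h2
    exact hout I h2 (fun v hv => (hmemL v).1 (h1 hv))
  have hI' : ∀ I : Finset V, I ⊆ L → Indep (rev A) I → I.card ≤ x := by
    intro I h1 h2
    exact hI I h1 (indep_rev A I h2)
  have hA' : ∀ v : V, (v, v) ∉ rev A := by
    intro v hv
    rw [mem_rev] at hv
    exact hA v hv
  obtain ⟨ρ, Zt, hZtL, hZtc, hFt⟩ := low_hubs A hA x L hI ℓ (2 * k + 8) hℓ
  obtain ⟨τ, Zs, hZsL, hZsc, hFs⟩ := low_hubs (rev A) hA' x L hI' ℓ (2 * k + 8) hℓ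
  obtain ⟨H, hHc, hHs⟩ := hub ℓ x (2 * x * ℓ * (k + 5)) hℓ hx A Lᶜ (by
    intro v hv
    rw [mem_compl, hmemL] at hv
    exact not_lt.1 hv) (num_hub ℓ x k _ hℓ hx hn')
  have hp : ℓ * (Zt.card + Zs.card + 2 * H.card) ≤ ℓ ^ 2 * x * (12 * k + 56) :=
    num_paths ℓ x k _ _ _ hZtc hZsc hHc
  -- units and branchings
  let Hb : Type := (↥Zt ⊕ ↥H) ⊕ (↥Zs ⊕ ↥H)
  let ι : Type := Hb × ZMod ℓ
  let pt : Hb → V := fun y => match y with
    | Sum.inl (Sum.inl z) => (z : V)
    | Sum.inl (Sum.inr z) => (z : V)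
    | Sum.inr (Sum.inl z) => (z : V)
    | Sum.inr (Sum.inr z) => (z : V)
  let src : ι → V := fun y => match y.1 with
    | Sum.inl z => pt (Sum.inl z)
    | Sum.inr _ => r
  let tgt : ι → V := fun y => match y.1 with
    | Sum.inl _ => r
    | Sum.inr z => pt (Sum.inr z)
  have hcard : Fintype.card ι = ℓ * (Zt.card + Zs.card + 2 * H.card) := by
    simp only [ι, Hb, Fintype.card_prod, Fintype.card_sum, Fintype.card_coe, ZMod.card]
    ring
  obtain ⟨P, O, hPA, hOA, hPr, hOr, hP1, hP2, hPd, hOd, hPO⟩ :=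
    path_system K A hcut (by
      rw [hcard, ZMod.card]
      exact num_total ℓ x k K _ hℓ hx hK hp) src tgt (fun _ : ZMod ℓ => r)
  set U : Finset (V × V) := univ.biUnion P with hU
  have hmemU : ∀ a, a ∈ U ↔ ∃ y, a ∈ P y := by
    intro a
    rw [hU, mem_biUnion]
    simp
  have hUout : ∀ v, outDeg U v ≤ ℓ * (Zt.card + Zs.card + 2 * H.card) := by
    intro v
    rw [← hcard]
    exact outDeg_paths P hP1 v
  have hUin : ∀ v, inDeg U v ≤ ℓ * (Zt.card + Zs.card + 2 * H.card) := by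
    intro v
    rw [← hcard]
    exact inDeg_paths P hP2 v
  -- thin forests
  obtain ⟨ht1, ht2⟩ := num_thin ℓ x k (Fintype.card V) hℓ hx hn'
  set R : Finset V := insert r (L ∪ H) with hR
  obtain ⟨T, hTA, hTd, hTc, hTR, hTt⟩ := thin (5 * x * ℓ) (Fintype.card V / (4 * x)) (A \ U) R O (by
      intro i a ha
      rw [mem_sdiff]
      refine ⟨hOA i ha, fun h => ?_⟩
      obtain ⟨y, hy⟩ := (hmemU a).1 h
      exact hPO y i a hy ha) (by
      intro i j hij
      rw [disjoint_left]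
      intro a ha hb
      exact hij (hOd i j a ha hb)) (by
      intro i v
      exact ⟨r, by rw [hR]; exact mem_insert_self _ _, hOr i v⟩) (by
      rw [ZMod.card]; exact ht1) (by
      intro w _
      rw [ZMod.card]
      apply num_deg ℓ x k K _ _ hℓ hx hK hp
      refine (hin w).trans ((inDeg_sdiff A U w).trans ?_)
      exact Nat.add_le_add_left (hUin w) _)
  set S : Finset (V × V) := univ.biUnion T with hS
  have hmemS : ∀ a, a ∈ S ↔ ∃ i, a ∈ T i := by
    intro a
    rw [hS, mem_biUnion]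
    simp
  have hSout : ∀ v, outDeg S v ≤ Fintype.card V / (4 * x) := fun v =>
    (outDeg_biUnion T v).trans (hTt v)
  have hSR : ∀ a ∈ S, a.2 ∉ R := by
    intro a ha
    obtain ⟨i, hi⟩ := (hmemS a).1 ha
    exact hTR i a hi
  have hSU : ∀ a ∈ S, a ∉ U := by
    intro a ha
    obtain ⟨i, hi⟩ := (hmemS a).1 ha
    exact (mem_sdiff.1 (hTA i hi)).2
  -- variables and shifts
  let var : V × V → Hb ⊕ (V × V) := fun a =>
    if h : ∃ y : ι, a ∈ P y then Sum.inl h.choose.1 else Sum.inr a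
  let sgn : V × V → ZMod ℓ := fun a =>
    if h : ∃ y : ι, a ∈ P y then h.choose.2 else 0
  have hvar : ∀ y a, a ∈ P y → var a = Sum.inl y.1 ∧ sgn a = y.2 := by
    intro y a ha
    have h : ∃ y : ι, a ∈ P y := ⟨y, ha⟩
    have h1 : h.choose = y := hPd _ _ a h.choose_spec ha
    constructor
    · simp only [var, dif_pos h, h1]
    · simp only [sgn, dif_pos h, h1]
  have hvar' : ∀ a, (¬ ∃ y : ι, a ∈ P y) → var a = Sum.inr a := by
    intro a h
    simp only [var, dif_neg h]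
  have hkey : ∀ a b, var a = var b → sgn a = sgn b → (a.1 = b.1 ∨ a.2 = b.2) → a = b := by
    intro a b h1 h2 h3
    by_cases ha : ∃ y : ι, a ∈ P y
    · obtain ⟨y, hy⟩ := ha
      by_cases hb : ∃ y : ι, b ∈ P y
      · obtain ⟨y', hy'⟩ := hb
        obtain ⟨g1, g2⟩ := hvar y a hy
        obtain ⟨g3, g4⟩ := hvar y' b hy'
        have g5 : y.1 = y'.1 := by
          rw [g1, g3] at h1
          exact Sum.inl.inj h1
        have g6 : y.2 = y'.2 := by rw [← g2, ← g4, h2]
        have g7 : y = y' := Prod.ext g5 g6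
        subst g7
        rcases h3 with h3 | h3
        · exact hP1 y a hy b hy' h3
        · exact hP2 y a hy b hy' h3
      · rw [(hvar y a hy).1, hvar' b hb] at h1
        cases h1
    · by_cases hb : ∃ y : ι, b ∈ P y
      · obtain ⟨y', hy'⟩ := hb
        rw [(hvar y' b hy').1, hvar' a ha] at h1
        cases h1
      · rw [hvar' a ha, hvar' b hb] at h1
        exact Sum.inr.inj h1
  -- the random colouring
  let F : V ⊕ V → Finset (V × V) := fun i => match i with
    | Sum.inl v => fwdSet (restr A L) ρ v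
    | Sum.inr v => rev (fwdSet (restr (rev A) L) τ v)
  let F' : V → Finset (V × V) := fun v => A.filter (fun a => a.1 = v ∧ a.2 ∈ H)
  have hn0 : (0 : ℝ) < Fintype.card V := by exact_mod_cast hnpos
  obtain ⟨ω, Mb, hMbM, hMbc, hω1, hω2⟩ := exists_colouring2 ℓ ((L \ Zt).disjSum (L \ Zs)) Lᶜ
    (4 * (x : ℝ) / Fintype.card V) (by positivity) F F' var sgn (by
    intro i _ a ha b hb h1 h2
    apply hkey a b h1 h2
    rcases i with v | v
    · left
      simp only [F, fwdSet, mem_filter] at ha hb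
      rw [ha.2.1, hb.2.1]
    · right
      simp only [F, fwdSet, mem_rev, mem_filter] at ha hb
      have e1 : a.2 = v := ha.2.1
      have e2 : b.2 = v := hb.2.1
      rw [e1, e2]) (by
    intro v _ a ha b hb h1 h2
    apply hkey a b h1 h2
    left
    simp only [F', mem_filter] at ha hb
    rw [ha.2.1, hb.2.1]) (by
    rw [sum_disjSum]
    have h1 : ∑ v ∈ L \ Zt, (ℓ : ℝ) * (1 - 1 / (ℓ : ℝ)) ^ (F (Sum.inl v)).card ≤
        (1 / 2) ^ (2 * k + 8) * (2 * (ℓ : ℝ) ^ 2 * x * ((2 * k + 8 : ℕ) + 1)) := hFt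
    have h2 : ∑ v ∈ L \ Zs, (ℓ : ℝ) * (1 - 1 / (ℓ : ℝ)) ^ (F (Sum.inr v)).card ≤
        (1 / 2) ^ (2 * k + 8) * (2 * (ℓ : ℝ) ^ 2 * x * ((2 * k + 8 : ℕ) + 1)) := by
      refine le_trans (le_of_eq ?_) hFs
      apply sum_congr rfl
      intro v _
      simp only [F, card_rev]
      rfl
    have h3 := num_low ℓ x k hk
    have h4 : 4 * (x : ℝ) / Fintype.card V *
        ∑ v ∈ Lᶜ, (ℓ : ℝ) * (1 - 1 / (ℓ : ℝ)) ^ (F' v).card ≤ 1 / 4 := by
      rw [← mul_sum]
      exact num_high ℓ x k (Fintype.card V) hℓ hx hnpos hk _ hHs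
    linarith)
  have hMb4 : 4 * x * Mb.card ≤ Fintype.card V := by
    have h1 : 4 * (x : ℝ) * Mb.card < Fintype.card V := by
      have h2 : 4 * (x : ℝ) / Fintype.card V * Mb.card * Fintype.card V < 1 * Fintype.card V :=
        mul_lt_mul_of_pos_right hMbc hn0
      have h3 : 4 * (x : ℝ) / Fintype.card V * Mb.card * Fintype.card V = 4 * x * Mb.card := by
        field_simp
      linarith
    have h4 : ((4 * x * Mb.card : ℕ) : ℝ) < ((Fintype.card V : ℕ) : ℝ) := by
      push_cast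
      exact h1
    exact (Nat.cast_lt.1 h4).le
  -- free arcs at the bad vertices
  let Fr : V → Finset (V × V) := fun v =>
    A.filter (fun a => a.1 = v ∧ a ∉ U ∧ a ∉ S ∧ a.2 ∉ Mb ∧ a.2 ∉ H)
  have hfree : ∀ v : V, ∃ g : V × V → ZMod ℓ, v ∈ Mb → ∀ κ, ∃ a ∈ Fr v, g a = κ := by
    intro v
    by_cases hv : v ∈ Mb
    · have h1 : ℓ ≤ (Fr v).card := by
        apply free_arcs A U S v ℓ x (ℓ * (Zt.card + Zs.card + 2 * H.card))
          (Fintype.card V / (4 * x)) Mb H hx _ (hUout v) (hSout v) ht2 hMb4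
        · exact num_free ℓ x k _ _ _ hℓ hx hn' hp hHc
        · have := hMbM hv
          rw [mem_compl, hmemL] at this
          exact not_lt.1 this
      obtain ⟨g, hg⟩ := exists_surj ℓ (Fr v) h1
      exact ⟨g, fun _ => hg⟩
    · exact ⟨fun _ => 0, fun h => absurd h hv⟩
  choose g hg using hfree
  -- the colouring
  let col : V × V → ZMod ℓ := fun a =>
    if h : ∃ i, a ∈ T i then h.choose
    else if a.1 ∈ Mb ∧ a ∈ Fr a.1 then g a.1 a
    else ω (var a) + sgn a
  have hcolT : ∀ i a, a ∈ T i → col a = i := by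
    intro i a ha
    have h : ∃ i, a ∈ T i := ⟨i, ha⟩
    have h1 : h.choose = i := by
      by_contra hne
      exact disjoint_left.1 (hTd _ _ hne) h.choose_spec ha
    simp only [col, dif_pos h, h1]
  have hcolF : ∀ v ∈ Mb, ∀ a ∈ Fr v, col a = g v a := by
    intro v hv a ha
    have ha' := ha
    simp only [Fr, mem_filter] at ha'
    have h1 : ¬ ∃ i, a ∈ T i := fun h => ha'.2.2.2.1 ((hmemS a).2 h)
    have h2 : a.1 = v := ha'.2.1
    simp only [col, dif_neg h1]
    rw [if_pos ⟨by rw [h2]; exact hv, by rw [h2]; exact ha⟩, h2]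
  have hcolω : ∀ a, (a ∈ U ∨ a.2 ∈ H ∨ (a.1 ∈ L ∧ a.2 ∈ L)) → col a = ω (var a) + sgn a := by
    intro a ha
    have h1 : ¬ ∃ i, a ∈ T i := by
      intro h
      have haS := (hmemS a).2 h
      rcases ha with ha | ha | ha
      · exact hSU a haS ha
      · exact hSR a haS (by rw [hR, mem_insert, mem_union]; exact Or.inr (Or.inr ha))
      · exact hSR a haS (by rw [hR, mem_insert, mem_union]; exact Or.inr (Or.inl ha.2))
    have h2 : ¬ (a.1 ∈ Mb ∧ a ∈ Fr a.1) := by
      rintro ⟨h3, h4⟩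
      simp only [Fr, mem_filter] at h4
      rcases ha with ha | ha | ha
      · exact h4.2.2.1 ha
      · exact h4.2.2.2.2.2 ha
      · exact mem_compl.1 (hMbM h3) ha.1
    simp only [col, dif_neg h1, if_neg h2]
  let B : ZMod ℓ → Finset (V × V) := fun κ => A.filter (fun a => col a = κ)
  have hunit : ∀ (y : Hb) (κ : ZMod ℓ), Reach (B κ) (src (y, κ - ω (Sum.inl y)))
      (tgt (y, κ - ω (Sum.inl y))) := by
    intro y κ
    refine Reach.mono ?_ (hPr (y, κ - ω (Sum.inl y)))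
    intro a ha
    obtain ⟨g1, g2⟩ := hvar _ a ha
    simp only [B, mem_filter]
    refine ⟨hPA _ ha, ?_⟩
    rw [hcolω a (Or.inl ((hmemU a).2 ⟨_, ha⟩)), g1, g2]
    ring
  refine ⟨B, fun i => filter_subset _ _, fun i j hij => ?_, fun κ u v => ?_⟩
  · rw [disjoint_left]
    intro a ha hb
    simp only [B, mem_filter] at ha hb
    exact hij (ha.2.symm.trans hb.2)
  · apply strong_of (B κ) r L H Zt Zs Mb ρ τ
    · intro z hz
      exact hunit (Sum.inl (Sum.inl ⟨z, hz⟩)) κ
    · intro z hz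
      exact hunit (Sum.inl (Sum.inr ⟨z, hz⟩)) κ
    · intro w hw hw'
      obtain ⟨a, ha, hcol⟩ := hω1 (Sum.inl w) (by
        rw [inl_mem_disjSum, mem_sdiff]; exact ⟨hw, hw'⟩) κ
      simp only [F, fwdSet, restr, mem_filter] at ha
      obtain ⟨⟨haA, ha1, ha2⟩, ha3, ha4⟩ := ha
      refine ⟨a.2, ha2, ?_, ha4⟩
      have : (w, a.2) = a := by rw [← ha3]
      rw [this]
      simp only [B, mem_filter]
      exact ⟨haA, by rw [hcolω a (Or.inr (Or.inr ⟨ha1, ha2⟩))]; exact hcol⟩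
    · intro w hw hw'
      obtain ⟨a, ha, hcol⟩ := hω2 w (mem_compl.2 hw) hw' κ
      simp only [F', mem_filter] at ha
      obtain ⟨haA, ha1, ha2⟩ := ha
      refine ⟨a.2, ha2, ?_⟩
      have : (w, a.2) = a := by rw [← ha1]
      rw [this]
      simp only [B, mem_filter]
      exact ⟨haA, by rw [hcolω a (Or.inr (Or.inl ha2))]; exact hcol⟩
    · intro w hw
      obtain ⟨a, ha, hcol⟩ := hg w hw κ
      have ha' := ha
      simp only [Fr, mem_filter] at ha'
      refine ⟨a.2, ha'.2.2.2.2.1, ?_⟩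
      have : (w, a.2) = a := by rw [← ha'.2.1]
      rw [this]
      simp only [B, mem_filter]
      exact ⟨ha'.1, by rw [hcolF w hw a ha]; exact hcol⟩
    · intro z hz
      exact hunit (Sum.inr (Sum.inl ⟨z, hz⟩)) κ
    · intro z hz
      exact hunit (Sum.inr (Sum.inr ⟨z, hz⟩)) κ
    · intro w hw hw'
      obtain ⟨a, ha, hcol⟩ := hω1 (Sum.inr w) (by
        rw [inr_mem_disjSum, mem_sdiff]; exact ⟨hw, hw'⟩) κ
      simp only [F, fwdSet, restr, mem_rev, mem_filter] at ha
      obtain ⟨⟨haA, ha1, ha2⟩, ha3, ha4⟩ := ha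
      have e1 : a.2 = w := ha3
      have e2 : a.1 ∈ L := ha2
      have e3 : a.2 ∈ L := ha1
      refine ⟨a.1, e2, ?_, ha4⟩
      have : (a.1, w) = a := by rw [← e1]
      rw [this]
      simp only [B, mem_filter]
      refine ⟨by simpa using haA, ?_⟩
      rw [hcolω a (Or.inr (Or.inr ⟨e2, e3⟩))]
      exact hcol
    · intro w
      obtain ⟨s, hs, hsw⟩ := hTc κ w
      refine ⟨s, by rw [← hR]; exact hs, Reach.mono ?_ hsw⟩
      intro a ha
      simp only [B, mem_filter]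
      exact ⟨(mem_sdiff.1 (hTA κ ha)).1, hcolT κ a ha⟩

end Pool.Agent.H68.OS
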