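import Pool.Agent.H68.OS.ASM
import Pool.Agent.H68.BJ.COR

/-!
# Project MP_e82622_OS (helper68), module FIN2: the one-sided theorem
-/

set_option autoImplicit false

namespace Pool.Agent.H68.OS

open Pool.Agent.H68.BJ Finset

theorem FIN2_deg {V : Type} [Fintype V] [DecidableEq V] (K : ℕ) (A : Finset (V × V))
    (hA : ∀ v : V, (v, v) ∉ A) (hs : Pool.Agent.H67.BJY.ArcStrong K A)
    (hn : 2 ≤ Fintype.card V) (v : V) : K ≤ outDeg A v ∧ K ≤ inDeg A v := by
  classical
  haveI : Nontrivial V := Fintype.one_lt_card_iff_nontrivial.1 hn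
  obtain ⟨u, hu⟩ := exists_ne v
  constructor
  · rw [outDeg_eq A hA]
    apply cut_of_arcStrong K A hs
    · exact ⟨u, by rw [mem_erase]; exact ⟨hu, mem_univ _⟩⟩
    · intro h
      have := mem_univ v
      rw [← h] at this
      simp at this
  · rw [inDeg_eq A hA]
    apply cut_of_arcStrong K A hs
    · exact ⟨v, by simp⟩
    · intro h
      have := mem_univ u
      rw [← h, mem_singleton] at this
      exact hu this

theorem one_sided {V : Type} [Fintype V] [DecidableEq V] (ℓ x K : ℕ) (hℓ : 1 ≤ ℓ)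
    (hK : 12 * (ℓ ^ 2 * x) * (2 * Nat.log 2 (ℓ ^ 2 * x) + 11) ≤ K)
    (A : Finset (V × V)) (hA : ∀ v : V, (v, v) ∉ A)
    (hs : Pool.Agent.H67.BJY.ArcStrong K A)
    (hout : ∀ I : Finset V, Indep A I → (∀ v ∈ I, x * outDeg A v < Fintype.card V) → I.card ≤ x) :
    ∃ B : Fin ℓ → Finset (V × V), (∀ i, B i ⊆ A) ∧ (∀ i j, i ≠ j → Disjoint (B i) (B j)) ∧
      ∀ i u v, Reach (B i) u v := by
  classical
  haveI : NeZero ℓ := ⟨by omega⟩
  rcases isEmpty_or_nonempty V with hV | ⟨⟨r⟩⟩
  · exact ⟨fun _ => ∅, fun _ => empty_subset _, fun _ _ _ => disjoint_empty_left _,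
      fun _ u _ => (hV.false u).elim⟩
  have hnpos : 0 < Fintype.card V := Fintype.card_pos_iff.2 ⟨r⟩
  have hx : 1 ≤ x := by
    by_contra h
    have hx0 : x = 0 := by omega
    have h1 := hout {r} (by
      intro u hu v hv huv
      rw [mem_singleton] at hu hv
      exact absurd (hu.trans hv.symm) huv) (by
      intro v _
      rw [hx0, zero_mul]
      exact hnpos)
    rw [card_singleton, hx0] at h1
    omega
  obtain ⟨k, hk⟩ : ∃ k, k = Nat.log 2 (ℓ ^ 2 * x) := ⟨_, rfl⟩
  obtain ⟨K₀, hK₀⟩ : ∃ K₀, K₀ = ℓ ^ 2 * x * (24 * k + 132) := ⟨_, rfl⟩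
  have hK' : K₀ ≤ K := by
    refine le_trans (le_of_eq ?_) hK
    rw [hK₀, hk]
    ring
  have hNpos : ℓ ^ 2 * x ≠ 0 := by positivity
  have hlt : ℓ ^ 2 * x < 2 ^ (k + 1) := by
    rw [hk]
    exact Nat.lt_pow_succ_log_self (by norm_num) _
  by_cases hn : 2 * x * K₀ ≤ Fintype.card V
  · have hn2 : 2 ≤ Fintype.card V := by
      refine le_trans ?_ hn
      rw [hK₀]
      have : 1 ≤ ℓ ^ 2 * x := Nat.one_le_iff_ne_zero.2 hNpos
      calc 2 = 2 * 1 * (1 * 1) := by norm_num
        _ ≤ 2 * x * (ℓ ^ 2 * x * (24 * k + 132)) :=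
          Nat.mul_le_mul (Nat.mul_le_mul_left _ hx) (Nat.mul_le_mul this (by omega))
    obtain ⟨B, hB1, hB2, hB3⟩ := case_two ℓ x k K₀ hℓ hx hlt hK₀ A hA
      (fun X h1 h2 => hK'.trans (cut_of_arcStrong K A hs X h1 h2))
      (fun v => hK'.trans (FIN2_deg K A hA hs hn2 v).2) hout hn
    let g : Fin ℓ ≃ ZMod ℓ := (Fintype.equivFinOfCardEq (ZMod.card ℓ)).symm
    exact ⟨fun i => B (g i), fun i => hB1 _, fun i j hij => hB2 _ _ (fun h => hij (g.injective h)),
      fun i u v => hB3 (g i) u v⟩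
  · push Not at hn
    have hsmall : ∀ f : V → ℕ, (2 ≤ Fintype.card V → ∀ v, K ≤ f v) → ∀ I : Finset V,
        (∀ v ∈ I, 2 * x * f v < Fintype.card V) → I.card ≤ 2 * x := by
      intro f hf I hI
      by_cases hn2 : 2 ≤ Fintype.card V
      · rcases I.eq_empty_or_nonempty with h | ⟨v, hv⟩
        · rw [h]; simp
        · exfalso
          have h1 := hI v hv
          have h2 : 2 * x * K₀ ≤ 2 * x * f v := Nat.mul_le_mul_left _ (hK'.trans (hf hn2 v))
          omega
      · have h1 : I.card ≤ Fintype.card V := card_le_univ I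
        omega
    apply main ℓ (2 * x) K hℓ _ A hA hs
    · intro I _ h
      exact hsmall (outDeg A) (fun h2 v => (FIN2_deg K A hA hs h2 v).1) I h
    · intro I _ h
      exact hsmall (inDeg A) (fun h2 v => (FIN2_deg K A hA hs h2 v).2) I h
    · refine le_trans (le_of_eq ?_) hK
      have h1 : ℓ ^ 2 * (2 * x) = ℓ ^ 2 * x * 2 := by ring
      rw [h1, Nat.log_mul_base (by norm_num) hNpos]
      ring

theorem FIN2_reach_rev {V : Type} [DecidableEq V] (B : Finset (V × V)) (u v : V)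
    (h : Relation.ReflTransGen (fun a b : V => (a, b) ∈ B) u v) :
    Relation.ReflTransGen (fun a b : V => (a, b) ∈ rev B) v u := by
  induction h with
  | refl => exact Relation.ReflTransGen.refl
  | tail _ hbc ih =>
    refine Relation.ReflTransGen.head ?_ ih
    rw [mem_rev]
    exact hbc

theorem FIN2_arcStrong_rev {V : Type} [DecidableEq V] (K : ℕ) (A : Finset (V × V))
    (hs : Pool.Agent.H67.BJY.ArcStrong K A) : Pool.Agent.H67.BJY.ArcStrong K (rev A) := by
  intro S hS hcard u v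
  have h1 : rev S ⊆ A := by
    intro a ha
    rw [mem_rev] at ha
    have := hS ha
    rw [mem_rev, Prod.swap_swap] at this
    exact this
  have h2 := hs (rev S) h1 (by rw [card_rev]; exact hcard) v u
  have h3 := FIN2_reach_rev _ _ _ h2
  have h4 : rev (A \ rev S) ⊆ rev A \ S := by
    intro a hab
    rw [mem_rev, mem_sdiff, mem_rev] at hab
    rw [mem_sdiff, mem_rev]
    refine ⟨hab.1, fun h => hab.2 ?_⟩
    simpa using h
  exact Reach.mono h4 h3

/-- The theorem with either of the two one-sided conditions. -/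
theorem one_sided_or {V : Type} [Fintype V] [DecidableEq V] (ℓ x K : ℕ) (hℓ : 1 ≤ ℓ)
    (hK : 12 * (ℓ ^ 2 * x) * (2 * Nat.log 2 (ℓ ^ 2 * x) + 11) ≤ K)
    (A : Finset (V × V)) (hA : ∀ v : V, (v, v) ∉ A)
    (hs : Pool.Agent.H67.BJY.ArcStrong K A)
    (h : (∀ I : Finset V, Indep A I → (∀ v ∈ I, x * outDeg A v < Fintype.card V) → I.card ≤ x) ∨
      (∀ I : Finset V, Indep A I → (∀ v ∈ I, x * inDeg A v < Fintype.card V) → I.card ≤ x)) :
    ∃ B : Fin ℓ → Finset (V × V), (∀ i, B i ⊆ A) ∧ (∀ i j, i ≠ j → Disjoint (B i) (B j)) ∧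
      ∀ i u v, Reach (B i) u v := by
  rcases h with h | h
  · exact one_sided ℓ x K hℓ hK A hA hs h
  · obtain ⟨B, h1, h2, h3⟩ := one_sided ℓ x K hℓ hK (rev A) (by
      intro v hv
      rw [mem_rev] at hv
      exact hA v hv) (FIN2_arcStrong_rev K A hs) (by
      intro I hI hd
      apply h I (indep_rev A I hI)
      intro v hv
      rw [← outDeg_rev]
      exact hd v hv)
    refine ⟨fun i => rev (B i), ?_, ?_, ?_⟩
    · intro i a ha
      rw [mem_rev] at ha
      have := h1 i ha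
      rw [mem_rev, Prod.swap_swap] at this
      exact this
    · intro i j hij
      rw [disjoint_left]
      intro a ha hb
      rw [mem_rev] at ha hb
      exact disjoint_left.1 (h2 i j hij) ha hb
    · intro i u v
      exact FIN2_reach_rev _ _ _ (h3 i v u)

end Pool.Agent.H68.OS
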