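import Pool.Agent.H68.BJ.Defs

/-!
# Project MP_e82622_OS (helper68), module TH1: one forest, deletion, exchange, disjoint subtrees

`Cover R B`: every vertex is reachable from some vertex of `R` by arcs of `B`.

All proofs are inductions on `Relation.ReflTransGen`; no walks are needed.

`cover_erase` : `B' = B.erase a`.  Take `v`, `s ∈ R` with `Reach B s v`.  Induction on this reach
(`Relation.ReflTransGen` `induction ... with | refl | tail`), claim `∃ r ∈ R, Reach B' r z` for
every `z` on it: `z = s`: `r = s`.  Step `z → z'` with `(z, z') ∈ B`: if `(z, z') = a` then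
`z' = a.2` and use the hypothesis; otherwise `(z, z') ∈ B'` and append.

`cover_erase_head`: head in `R`: `cover_erase` with `r = a.2`, `refl`.

`cover_erase_two`: two arcs with the same head `y`, one of them can be deleted.  If
`∃ r ∈ R, Reach (B.erase (p, y)) r y` or the same for `q` we are done by `cover_erase`.  Otherwise let
`C = B.filter (fun a => a.2 ≠ y)`; `C ⊆ B.erase (p, y)`, `C ⊆ B.erase (q, y)`.  Take `s ∈ R` with
`Reach B s y` (Cover).  Claim by induction, for every `z` with `Reach B s z`: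
`∃ r ∈ R, Reach C r z`.  `z = s`: clear.  Step `(z, z') ∈ B`, `Reach C r z`: if `z' ≠ y` then
`(z, z') ∈ C`.  If `z' = y`: `z ≠ p` or `z ≠ q`; if `z ≠ p` then `(z, y) ∈ B.erase (p, y)` and
`Reach (B.erase (p, y)) r z` by monotonicity, so `Reach (B.erase (p, y)) r y`: contradiction.  The
same if `z ≠ q`.  For `z = y` the claim gives `Reach C r y ⊆ Reach (B.erase (p, y)) r y`,
contradiction.

`cover_exchange`: `u` not reachable from `w` in `B`, `(v, w) ∈ B`.  Let `B0 = B.erase (v, w)`,
`B1 = insert (u, w) B0`.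
 (1) for every `z` with `Reach B s z`, `s ∈ R`: `Reach B w z ∨ ∃ r ∈ R, Reach B0 r z`.  Induction:
 `z = s`: right.  Step `(z, z') ∈ B`: if left for `z` then left for `z'`; if right for `z`:
 `(z, z') = (v, w)` gives `z' = w`, left (`refl`); otherwise right.
 (2) so `∃ r ∈ R, Reach B0 r u`, hence `∃ r ∈ R, Reach B1 r w` (append the arc `(u, w)`).
 (3) for every `z` with `Reach B s z`, `s ∈ R`: `∃ r ∈ R, Reach B1 r z`.  Induction: step
 `(z, z') ∈ B`: if `(z, z') = (v, w)` then `z' = w` and use (2), otherwise append.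

`sub_disjoint`: `B` has in-degrees `≤ 1` and no heads in `R`, covers; `(v, w), (v, w') ∈ B`,
`w ≠ w'`; no `y` is reachable from both.  Suppose `Reach B w y`, `Reach B w' y`.
 (1) `total`: if `Reach B p y` and `Reach B q y` then `Reach B p q ∨ Reach B q p`
 (`Relation.ReflTransGen.total_of_right_unique` applied to the swapped relation, or induction).
 So w.l.o.g. `Reach B w w'`, `w ≠ w'` (the other case is symmetric; use an auxiliary lemma).
 (2) `Relation.ReflTransGen.cases_tail`: there is `t` with `Reach B w t`, `(t, w') ∈ B`; in-degree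
 `≤ 1` at `w'` gives `t = v`.  So `Reach B w v`, and `(v, w) ∈ B`: a cycle.
 (3) `no_cycle`: `Reach B w v` and `(v, w) ∈ B` is impossible.  Let
 `Cyc z := Reach B w z ∧ Reach B z v`.  Take `s ∈ R` with `Reach B s w`.  Claim: every `z` with
 `Reach B s z` has `¬ Cyc z`.  `z = s`: `Reach B w s` and `s ∈ R` has no incoming arc, so `w = s`
 (`cases_tail`), but `(v, w) ∈ B` has head `w = s ∈ R`: contradiction.  Step `(z, z') ∈ B`,
 `¬ Cyc z`, suppose `Cyc z'`.  `cases_tail` on `Reach B w z'`: either `z' = w`, then `z = v`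
 (in-degree `≤ 1` at `w`), and `Cyc v` holds (`Reach B w v`, `refl`): contradiction; or there is
 `t` with `Reach B w t`, `(t, z') ∈ B`, so `t = z` (in-degree `≤ 1`), so `Reach B w z`, and
 `Reach B z v` by `head`: `Cyc z`, contradiction.  But `Cyc w` holds: contradiction.
-/

set_option autoImplicit false

namespace Pool.Agent.H68.OS

open Pool.Agent.H68.BJ

/-- Every vertex is reachable from some vertex of `R` by arcs of `B`. -/
def Cover {V : Type} (R : Finset V) (B : Finset (V × V)) : Prop := ∀ v, ∃ r ∈ R, Reach B r v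

private lemma TH1_mono {V : Type} {B C : Finset (V × V)} (h : B ⊆ C) {u v : V}
    (hr : Reach B u v) : Reach C u v := by
  unfold Reach at hr ⊢
  induction hr with
  | refl => exact Relation.ReflTransGen.refl
  | tail _ hzz ih => exact Relation.ReflTransGen.tail ih (h hzz)

private lemma TH1_tail {V : Type} {B : Finset (V × V)} {u v w : V}
    (hr : Reach B u v) (h : (v, w) ∈ B) : Reach B u w :=
  Relation.ReflTransGen.tail hr h

theorem cover_erase {V : Type} [DecidableEq V] (R : Finset V) (B : Finset (V × V)) (a : V × V)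
    (hB : Cover R B) (h : ∃ r ∈ R, Reach (B.erase a) r a.2) : Cover R (B.erase a) := by
  intro v
  obtain ⟨s, hs, hsv⟩ := hB v
  unfold Reach at hsv
  induction hsv with
  | refl => exact ⟨s, hs, Relation.ReflTransGen.refl⟩
  | @tail z z' hz hzz ih =>
    obtain ⟨r, hr, hrz⟩ := ih
    by_cases he : (z, z') = a
    · obtain ⟨r', hr', hr2⟩ := h
      refine ⟨r', hr', ?_⟩
      have e : z' = a.2 := congrArg Prod.snd he
      rw [e]
      exact hr2
    · exact ⟨r, hr, TH1_tail hrz (Finset.mem_erase.2 ⟨he, hzz⟩)⟩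

theorem cover_erase_head {V : Type} [DecidableEq V] (R : Finset V) (B : Finset (V × V))
    (a : V × V) (hB : Cover R B) (h : a.2 ∈ R) : Cover R (B.erase a) :=
  cover_erase R B a hB ⟨a.2, h, Relation.ReflTransGen.refl⟩

theorem cover_erase_two {V : Type} [DecidableEq V] (R : Finset V) (B : Finset (V × V))
    (p q y : V) (hB : Cover R B) (hp : (p, y) ∈ B) (hq : (q, y) ∈ B) (hpq : p ≠ q) :
    Cover R (B.erase (p, y)) ∨ Cover R (B.erase (q, y)) := by
  by_cases h1 : ∃ r ∈ R, Reach (B.erase (p, y)) r y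
  · exact Or.inl (cover_erase R B (p, y) hB h1)
  by_cases h2 : ∃ r ∈ R, Reach (B.erase (q, y)) r y
  · exact Or.inr (cover_erase R B (q, y) hB h2)
  exfalso
  obtain ⟨C, hC⟩ : ∃ C : Finset (V × V), C = B.filter (fun a => a.2 ≠ y) := ⟨_, rfl⟩
  have hCs : ∀ t : V, C ⊆ B.erase (t, y) := by
    intro t a ha
    rw [hC, Finset.mem_filter] at ha
    refine Finset.mem_erase.2 ⟨?_, ha.1⟩
    intro e
    exact ha.2 (congrArg Prod.snd e)
  obtain ⟨s, hs, hsy⟩ := hB y
  have key : ∀ z, Reach B s z → ∃ r ∈ R, Reach C r z := by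
    intro z hz
    unfold Reach at hz
    induction hz with
    | refl => exact ⟨s, hs, Relation.ReflTransGen.refl⟩
    | @tail z z' hz hzz ih =>
      obtain ⟨r, hr, hrz⟩ := ih
      by_cases hy : z' = y
      · exfalso
        rw [hy] at hzz
        by_cases hp' : z = p
        · have hq' : z ≠ q := by rw [hp']; exact hpq
          exact h2 ⟨r, hr, TH1_tail (TH1_mono (hCs q) hrz)
            (Finset.mem_erase.2 ⟨fun e => hq' (congrArg Prod.fst e), hzz⟩)⟩
        · exact h1 ⟨r, hr, TH1_tail (TH1_mono (hCs p) hrz)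
            (Finset.mem_erase.2 ⟨fun e => hp' (congrArg Prod.fst e), hzz⟩)⟩
      · refine ⟨r, hr, TH1_tail hrz ?_⟩
        rw [hC]
        exact Finset.mem_filter.2 ⟨hzz, hy⟩
  obtain ⟨r, hr, hry⟩ := key y hsy
  exact h1 ⟨r, hr, TH1_mono (hCs p) hry⟩

theorem cover_exchange {V : Type} [DecidableEq V] (R : Finset V) (B : Finset (V × V))
    (u v w : V) (hB : Cover R B) (hvw : (v, w) ∈ B) (hu : ¬ Reach B w u) :
    Cover R (insert (u, w) (B.erase (v, w))) := by
  have h1 : ∀ s z, s ∈ R → Reach B s z → Reach B w z ∨ ∃ r ∈ R, Reach (B.erase (v, w)) r z := by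
    intro s z hs hz
    unfold Reach at hz
    induction hz with
    | refl => exact Or.inr ⟨s, hs, Relation.ReflTransGen.refl⟩
    | @tail z z' hz hzz ih =>
      rcases ih with ih | ⟨r, hr, hrz⟩
      · exact Or.inl (TH1_tail ih hzz)
      · by_cases he : (z, z') = (v, w)
        · left
          have e : z' = w := congrArg Prod.snd he
          rw [e]
          exact Relation.ReflTransGen.refl
        · exact Or.inr ⟨r, hr, TH1_tail hrz (Finset.mem_erase.2 ⟨he, hzz⟩)⟩
  have h2 : ∃ r ∈ R, Reach (insert (u, w) (B.erase (v, w))) r w := by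
    obtain ⟨s, hs, hsu⟩ := hB u
    rcases h1 s u hs hsu with h | ⟨r, hr, hru⟩
    · exact absurd h hu
    · exact ⟨r, hr, TH1_tail (TH1_mono (Finset.subset_insert _ _) hru)
        (Finset.mem_insert_self _ _)⟩
  intro z
  obtain ⟨s, hs, hsz⟩ := hB z
  unfold Reach at hsz
  induction hsz with
  | refl => exact ⟨s, hs, Relation.ReflTransGen.refl⟩
  | @tail z z' hz hzz ih =>
    obtain ⟨r, hr, hrz⟩ := ih
    by_cases he : (z, z') = (v, w)
    · have e : z' = w := congrArg Prod.snd he
      rw [e]
      exact h2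
    · exact ⟨r, hr, TH1_tail hrz (Finset.mem_insert_of_mem (Finset.mem_erase.2 ⟨he, hzz⟩))⟩

private lemma TH1_nocycle {V : Type} (R : Finset V) (B : Finset (V × V))
    (hB : Cover R B) (hR : ∀ a ∈ B, a.2 ∉ R) (hin : ∀ a ∈ B, ∀ b ∈ B, a.2 = b.2 → a = b)
    (v w : V) (hw : (v, w) ∈ B) (h : Reach B w v) : False := by
  obtain ⟨s, hs, hsw⟩ := hB w
  have key : ∀ z, Reach B s z → ¬ (Reach B w z ∧ Reach B z v) := by
    intro z hz
    unfold Reach at hz
    induction hz with
    | refl =>
      rintro ⟨h1, h2⟩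
      rcases Relation.ReflTransGen.cases_tail h1 with h3 | ⟨t, ht, hts⟩
      · apply hR _ hw
        show w ∈ R
        rw [← h3]
        exact hs
      · exact hR _ hts hs
    | @tail z z' hz hzz ih =>
      rintro ⟨h1, h2⟩
      rcases Relation.ReflTransGen.cases_tail h1 with h3 | ⟨t, ht, htz⟩
      · have e : (z, z') = (v, w) := hin _ hzz _ hw h3
        have ev : z = v := congrArg Prod.fst e
        refine ih ⟨?_, ?_⟩
        · rw [ev]; exact h
        · rw [ev]; exact Relation.ReflTransGen.refl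
      · have e : (t, z') = (z, z') := hin _ htz _ hzz rfl
        have et : t = z := congrArg Prod.fst e
        refine ih ⟨?_, Relation.ReflTransGen.head hzz h2⟩
        rw [← et]
        exact ht
  exact key w hsw ⟨Relation.ReflTransGen.refl, h⟩

private lemma TH1_total {V : Type} (B : Finset (V × V))
    (hin : ∀ a ∈ B, ∀ b ∈ B, a.2 = b.2 → a = b) (p y : V) (hp : Reach B p y) :
    ∀ q, Reach B q y → Reach B p q ∨ Reach B q p := by
  unfold Reach at hp
  induction hp with
  | refl => exact fun q hq => Or.inr hq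
  | @tail z z' hz hzz ih =>
    intro q hq
    rcases Relation.ReflTransGen.cases_tail hq with h3 | ⟨t, ht, htz⟩
    · left
      rw [← h3]
      exact TH1_tail hz hzz
    · have e : (t, z') = (z, z') := hin _ htz _ hzz rfl
      have et : t = z := congrArg Prod.fst e
      rw [et] at ht
      exact ih q ht

private lemma TH1_sd {V : Type} (R : Finset V) (B : Finset (V × V))
    (hB : Cover R B) (hR : ∀ a ∈ B, a.2 ∉ R) (hin : ∀ a ∈ B, ∀ b ∈ B, a.2 = b.2 → a = b)
    (v w w' : V) (hw : (v, w) ∈ B) (hw' : (v, w') ∈ B) (hne : w ≠ w')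
    (h : Reach B w w') : False := by
  rcases Relation.ReflTransGen.cases_tail h with h3 | ⟨t, ht, htw⟩
  · exact hne h3.symm
  · have e : (t, w') = (v, w') := hin _ htw _ hw' rfl
    have et : t = v := congrArg Prod.fst e
    rw [et] at ht
    exact TH1_nocycle R B hB hR hin v w hw ht

theorem sub_disjoint {V : Type} [DecidableEq V] (R : Finset V) (B : Finset (V × V))
    (hB : Cover R B) (hR : ∀ a ∈ B, a.2 ∉ R) (hin : ∀ a ∈ B, ∀ b ∈ B, a.2 = b.2 → a = b)
    (v w w' y : V) (hw : (v, w) ∈ B) (hw' : (v, w') ∈ B) (hne : w ≠ w')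
    (h : Reach B w y) (h' : Reach B w' y) : False := by
  rcases TH1_total B hin w y h w' h' with h1 | h1
  · exact TH1_sd R B hB hR hin v w w' hw hw' hne h1
  · exact TH1_sd R B hB hR hin v w' w hw' hw hne.symm h1

end Pool.Agent.H68.OS
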