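import Pool.Agent.H68.OS.TH1

/-!
# Project MP_e82622_OS (helper68), module TH2: thin covering forests

Statement `thin`.  Given pairwise disjoint arc sets `O i ⊆ A₁` (`i : ι`), each covering from `R`,
there are such sets `B i` without heads in `R` whose union has at most `t` arcs with any given
tail, provided `#ι * n < (a + 1) * t` and every vertex outside `R` has more than `2 a + #ι`
incoming arcs in `A₁`.

Proof.  For a family `B : ι → Finset (V × V)` put `s B v = ∑ i, outDeg (B i) v` and
`pot B = ∑ v, (s B v)^2`.  Call `B` good if `B i ⊆ A₁`, pairwise disjoint, `Cover R (B i)`.  The set of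
natural numbers `pot B`, `B` good, is not empty (`O`); take a good `B` with `pot B` minimal
(`Nat.find` or `WellFounded.min` / `exists_minimalFor_of_wellFoundedLT`, or `Finset.exists_min_image`
over the finite type of families).
 (1) no deletion: if `a ∈ B i` then `¬ Cover R ((B i).erase a)`: otherwise replace `B i` by
 `(B i).erase a` (`Function.update B i _`): still good, `s` decreases by one at `a.1` and
 is unchanged elsewhere, `s B a.1 ≥ 1`, so `pot` decreases.  Hence by `cover_erase_head` all heads
 of arcs of `B i` are outside `R`, and by `cover_erase_two` in-degrees in `B i` are at most one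
 (`a, b ∈ B i`, `a.2 = b.2` implies `a = b`).
 (2) so `#(B i) ≤ n` (`a ↦ a.2` is injective on `B i`) and `∑ v, s B v = ∑ i, #(B i) ≤ #ι * n`.
 (3) suppose `s B v ≥ t + 1` for some `v`.  For `i : ι` and `w` with `(v, w) ∈ B i` let
 `D i w = {y | Reach (B i) w y}` (as a `Finset`, classical decidability).  By `sub_disjoint` the
 sets `D i w` (`i` fixed) are pairwise disjoint, so `∑_{w} #(D i w) ≤ n`, and
 `∑ i ∑ w #(D i w) ≤ #ι * n`.  If all `#(D i w) ≥ a + 1` then `(a + 1) * s B v ≤ #ι * n <
 (a + 1) * t`, contradiction with `s B v ≥ t`.  So there are `i`, `w` with `(v, w) ∈ B i` and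
 `#(D i w) ≤ a`.  `w ∉ R` by (1).
 (4) the set `T = {u | t ≤ s B u}` has at most `a` elements: `t * #T ≤ ∑ s B u ≤ #ι * n <
 (a + 1) * t`.
 (5) the set `{u | (u, w) ∈ B j for some j}` has at most `#ι` elements (in-degrees `≤ 1`).
 (6) `w` has more than `2 a + #ι` in-neighbours in `A₁`, so there is `u` with `(u, w) ∈ A₁`,
 `u ∉ D i w`, `u ∉ T`, `(u, w) ∉ B j` for all `j`.
 (7) `B' = Function.update B i (insert (u, w) ((B i).erase (v, w)))` is good (`cover_exchange`),
 `s B' v = s B v - 1`, `s B' u = s B u + 1`, others unchanged (`u ≠ v` since `s B u < t < s B v`),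
 so `pot B' - pot B = 2 (s B u - s B v + 1) < 0`, contradiction.
-/

set_option autoImplicit false

namespace Pool.Agent.H68.OS

open Pool.Agent.H68.BJ

/-- number of arcs with tail `v` in the whole family -/
def TH2_s {V ι : Type} [Fintype ι] [DecidableEq V] (B : ι → Finset (V × V)) (v : V) : ℕ :=
  ∑ i, outDeg (B i) v

/-- the potential -/
def TH2_pot {V ι : Type} [Fintype V] [Fintype ι] [DecidableEq V] (B : ι → Finset (V × V)) : ℕ :=
  ∑ v, (TH2_s B v) ^ 2

/-- admissible families -/
def TH2_good {V ι : Type} (A₁ : Finset (V × V)) (R : Finset V) (B : ι → Finset (V × V)) : Prop :=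
  (∀ i, B i ⊆ A₁) ∧ (∀ i j, i ≠ j → Disjoint (B i) (B j)) ∧ ∀ i, Cover R (B i)

theorem TH2_out_erase {V : Type} [DecidableEq V] (C : Finset (V × V)) (e : V × V) (he : e ∈ C) (v : V) :
    outDeg (C.erase e) v + (if e.1 = v then 1 else 0) = outDeg C v := by
  unfold outDeg
  by_cases h : e.1 = v
  · rw [if_pos h]
    have h1 : (C.erase e).filter (fun a => a.1 = v) = (C.filter (fun a => a.1 = v)).erase e := by
      ext x
      simp only [Finset.mem_filter, Finset.mem_erase]
      tauto
    rw [h1]
    exact Finset.card_erase_add_one (Finset.mem_filter.2 ⟨he, h⟩)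
  · rw [if_neg h, add_zero]
    congr 1
    ext x
    simp only [Finset.mem_filter, Finset.mem_erase]
    constructor
    · rintro ⟨⟨_, h2⟩, h3⟩
      exact ⟨h2, h3⟩
    · rintro ⟨h2, h3⟩
      refine ⟨⟨?_, h2⟩, h3⟩
      rintro rfl
      exact h h3

theorem TH2_out_insert {V : Type} [DecidableEq V] (C : Finset (V × V)) (e : V × V) (he : e ∉ C) (v : V) :
    outDeg (insert e C) v = outDeg C v + (if e.1 = v then 1 else 0) := by
  unfold outDeg
  rw [Finset.filter_insert]
  by_cases h : e.1 = v
  · rw [if_pos h, if_pos h, Finset.card_insert_of_notMem]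
    intro h1
    exact he (Finset.mem_filter.1 h1).1
  · rw [if_neg h, if_neg h, add_zero]

theorem TH2_s_update {V ι : Type} [Fintype ι] [DecidableEq ι] [DecidableEq V] (B : ι → Finset (V × V)) (i : ι)
    (C : Finset (V × V)) (v : V) : TH2_s (Function.update B i C) v + outDeg (B i) v = TH2_s B v + outDeg C v := by
  unfold TH2_s
  rw [← Finset.add_sum_erase Finset.univ (fun j => outDeg (Function.update B i C j) v) (Finset.mem_univ i),
    ← Finset.add_sum_erase Finset.univ (fun j => outDeg (B j) v) (Finset.mem_univ i)]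
  have h : ∑ j ∈ Finset.univ.erase i, outDeg (Function.update B i C j) v =
      ∑ j ∈ Finset.univ.erase i, outDeg (B j) v := by
    refine Finset.sum_congr rfl fun j hj => ?_
    rw [Function.update_of_ne (Finset.ne_of_mem_erase hj)]
  rw [h]
  simp only [Function.update_self]
  omega

theorem TH2_min {V ι : Type} [Fintype V] [Fintype ι] [DecidableEq V] (A₁ : Finset (V × V)) (R : Finset V)
    (O : ι → Finset (V × V)) (hO : TH2_good A₁ R O) :
    ∃ B : ι → Finset (V × V), TH2_good A₁ R B ∧
      ∀ B' : ι → Finset (V × V), TH2_good A₁ R B' → TH2_pot B ≤ TH2_pot B' := by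
  obtain ⟨B, hB, hm⟩ := (InvImage.wf (TH2_pot : (ι → Finset (V × V)) → ℕ) Nat.lt_wfRel.wf).has_min
    {B | TH2_good A₁ R B} ⟨O, hO⟩
  refine ⟨B, hB, fun B' hB' => ?_⟩
  have h1 := hm B' hB'
  exact not_lt.1 h1

/-- no deletion -/
theorem TH2_nodel {V ι : Type} [Fintype V] [Fintype ι] [DecidableEq ι] [DecidableEq V] (A₁ : Finset (V × V)) (R : Finset V)
    (B : ι → Finset (V × V)) (hB : TH2_good A₁ R B) (hm : ∀ B' : ι → Finset (V × V), TH2_good A₁ R B' → TH2_pot B ≤ TH2_pot B')
    (i : ι) (e : V × V) (he : e ∈ B i) : ¬ Cover R ((B i).erase e) := by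
  intro hc
  obtain ⟨h1, h2, h3⟩ := hB
  have hsub : ∀ j, Function.update B i ((B i).erase e) j ⊆ B j := by
    intro j
    by_cases hj : j = i
    · subst hj
      rw [Function.update_self]
      exact Finset.erase_subset _ _
    · rw [Function.update_of_ne hj]
  have hgood : TH2_good A₁ R (Function.update B i ((B i).erase e)) := by
    refine ⟨fun j => (hsub j).trans (h1 j), fun j k hjk => ?_, fun j => ?_⟩
    · exact Finset.disjoint_of_subset_left (hsub j) (Finset.disjoint_of_subset_right (hsub k) (h2 j k hjk))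
    · by_cases hj : j = i
      · subst hj
        rw [Function.update_self]
        exact hc
      · rw [Function.update_of_ne hj]
        exact h3 j
  have hpot := hm _ hgood
  have hs : ∀ v, TH2_s (Function.update B i ((B i).erase e)) v + (if e.1 = v then 1 else 0) = TH2_s B v := by
    intro v
    have h4 := TH2_s_update B i ((B i).erase e) v
    have h5 := TH2_out_erase (B i) e he v
    omega
  have hlt : TH2_pot (Function.update B i ((B i).erase e)) < TH2_pot B := by
    unfold TH2_pot
    apply Finset.sum_lt_sum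
    · intro v _
      have h4 := hs v
      have h5 : TH2_s (Function.update B i ((B i).erase e)) v ≤ TH2_s B v := by omega
      exact Nat.pow_le_pow_left h5 2
    · refine ⟨e.1, Finset.mem_univ _, ?_⟩
      have h4 := hs e.1
      rw [if_pos rfl] at h4
      have h5 : TH2_s (Function.update B i ((B i).erase e)) e.1 < TH2_s B e.1 := by omega
      exact Nat.pow_lt_pow_left h5 (by norm_num)
  omega

theorem TH2_sq (s : ℤ) (p q : Prop) [Decidable p] [Decidable q] (h : ¬ (p ∧ q)) :
    (s + (if p then 1 else 0) - (if q then 1 else 0)) ^ 2 =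
      s ^ 2 + (if p then (2 * s + 1) else 0) + (if q then (1 - 2 * s) else 0) := by
  by_cases hp : p
  · by_cases hq : q
    · exact absurd ⟨hp, hq⟩ h
    · simp only [if_pos hp, if_neg hq]
      ring
  · by_cases hq : q
    · simp only [if_neg hp, if_pos hq]
      ring
    · simp only [if_neg hp, if_neg hq]
      ring

/-- the exchange lowers the potential -/
theorem TH2_exch {V ι : Type} [Fintype V] [Fintype ι] [DecidableEq ι] [DecidableEq V]
    (B B' : ι → Finset (V × V)) (u v : V) (huv : u ≠ v) (t : ℕ) (hu : TH2_s B u < t) (hv : t < TH2_s B v)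
    (hs : ∀ x, TH2_s B' x + (if v = x then 1 else 0) = TH2_s B x + (if u = x then 1 else 0)) :
    TH2_pot B' < TH2_pot B := by
  have h1 : ∀ x, (TH2_s B' x : ℤ) = (TH2_s B x : ℤ) + (if u = x then 1 else 0) - (if v = x then 1 else 0) := by
    intro x
    have h2 := hs x
    by_cases h3 : u = x
    · have h4 : v ≠ x := fun h => huv (h3.trans h.symm)
      simp only [if_pos h3, if_neg h4] at h2 ⊢
      omega
    · by_cases h4 : v = x
      · simp only [if_neg h3, if_pos h4] at h2 ⊢
        omega
      · simp only [if_neg h3, if_neg h4] at h2 ⊢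
        omega
  have h5 : (TH2_pot B' : ℤ) = (TH2_pot B : ℤ) + (2 * (TH2_s B u : ℤ) + 1) + (1 - 2 * (TH2_s B v : ℤ)) := by
    unfold TH2_pot
    push_cast
    have h6 : ∀ x ∈ (Finset.univ : Finset V), (TH2_s B' x : ℤ) ^ 2 = (TH2_s B x : ℤ) ^ 2 +
        (if u = x then (2 * (TH2_s B x : ℤ) + 1) else 0) + (if v = x then (1 - 2 * (TH2_s B x : ℤ)) else 0) := by
      intro x _
      rw [h1 x]
      exact TH2_sq _ _ _ (fun h => huv (h.1.trans h.2.symm))
    rw [Finset.sum_congr rfl h6, Finset.sum_add_distrib, Finset.sum_add_distrib, Finset.sum_ite_eq, Finset.sum_ite_eq,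
      if_pos (Finset.mem_univ _), if_pos (Finset.mem_univ _)]
  omega

theorem thin {V ι : Type} [Fintype V] [DecidableEq V] [Fintype ι] [DecidableEq ι] (a t : ℕ)
    (A₁ : Finset (V × V)) (R : Finset V) (O : ι → Finset (V × V)) (hOA : ∀ i, O i ⊆ A₁)
    (hOd : ∀ i j, i ≠ j → Disjoint (O i) (O j)) (hOc : ∀ i, Cover R (O i))
    (ht : Fintype.card ι * Fintype.card V < (a + 1) * t)
    (hdeg : ∀ w, w ∉ R → 2 * a + Fintype.card ι < inDeg A₁ w) :
    ∃ B : ι → Finset (V × V), (∀ i, B i ⊆ A₁) ∧ (∀ i j, i ≠ j → Disjoint (B i) (B j)) ∧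
      (∀ i, Cover R (B i)) ∧ (∀ i, ∀ e ∈ B i, e.2 ∉ R) ∧ ∀ v, ∑ i, outDeg (B i) v ≤ t := by
  classical
  obtain ⟨B, hB, hm⟩ := TH2_min A₁ R O ⟨hOA, hOd, hOc⟩
  have hnd := TH2_nodel A₁ R B hB hm
  obtain ⟨hBA, hBd, hBc⟩ := hB
  have hhead : ∀ i, ∀ e ∈ B i, e.2 ∉ R := fun i e he h =>
    hnd i e he (cover_erase_head R (B i) e (hBc i) h)
  have hin : ∀ i, ∀ e ∈ B i, ∀ f ∈ B i, e.2 = f.2 → e = f := by
    intro i e he f hf hef
    by_contra hne
    have h1 : e.1 ≠ f.1 := fun h => hne (Prod.ext h hef)
    have he' : (e.1, e.2) ∈ B i := he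
    have hf' : (f.1, e.2) ∈ B i := by rw [hef]; exact hf
    rcases cover_erase_two R (B i) e.1 f.1 e.2 (hBc i) he' hf' h1 with h | h
    · exact hnd i _ he' h
    · exact hnd i _ hf' h
  refine ⟨B, hBA, hBd, hBc, hhead, fun v => ?_⟩
  by_contra hcon
  have hv : t < TH2_s B v := not_le.1 hcon
  -- number of arcs
  have hcard : ∀ i, (B i).card ≤ Fintype.card V := by
    intro i
    rw [← Finset.card_univ]
    exact Finset.card_le_card_of_injOn (fun e => e.2) (fun _ _ => Finset.mem_coe.2 (Finset.mem_univ _))
      (fun e he f hf h => hin i e (Finset.mem_coe.1 he) f (Finset.mem_coe.1 hf) h)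
  have hsum : ∑ x, TH2_s B x ≤ Fintype.card ι * Fintype.card V := by
    unfold TH2_s
    rw [Finset.sum_comm]
    have h1 : ∀ i ∈ (Finset.univ : Finset ι), ∑ x, outDeg (B i) x ≤ Fintype.card V := by
      intro i _
      have h2 : (B i).card = ∑ x, outDeg (B i) x :=
        Finset.card_eq_sum_card_fiberwise (f := fun e : V × V => e.1) (t := Finset.univ)
          (fun _ _ => Finset.mem_coe.2 (Finset.mem_univ _))
      rw [← h2]
      exact hcard i
    refine (Finset.sum_le_sum h1).trans (le_of_eq ?_)
    rw [Finset.sum_const, Finset.card_univ, smul_eq_mul]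
  -- a small subtree
  obtain ⟨i, w, hvw, hD⟩ : ∃ (i : ι) (w : V), (v, w) ∈ B i ∧
      (Finset.univ.filter (fun y => Reach (B i) w y)).card ≤ a := by
    by_contra hno
    push Not at hno
    have h1 : ∀ i, (a + 1) * outDeg (B i) v ≤ Fintype.card V := by
      intro i
      have h2 : ∑ e ∈ (B i).filter (fun e => e.1 = v), (a + 1) ≤
          ∑ e ∈ (B i).filter (fun e => e.1 = v), (Finset.univ.filter (fun y => Reach (B i) e.2 y)).card := by
        refine Finset.sum_le_sum fun e he => ?_
        obtain ⟨he1, he2⟩ := Finset.mem_filter.1 he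
        refine hno i e.2 ?_
        rw [← he2]
        exact he1
      have h3 : ∑ e ∈ (B i).filter (fun e => e.1 = v), (Finset.univ.filter (fun y => Reach (B i) e.2 y)).card =
          (((B i).filter (fun e => e.1 = v)).biUnion
            (fun e => Finset.univ.filter (fun y => Reach (B i) e.2 y))).card := by
        rw [Finset.card_biUnion]
        intro e he f hf hne
        apply Finset.disjoint_left.2
        intro y hy1 hy2
        obtain ⟨he1, he2⟩ := Finset.mem_filter.1 he
        obtain ⟨hf1, hf2⟩ := Finset.mem_filter.1 hf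
        have he3 : (v, e.2) ∈ B i := by rw [← he2]; exact he1
        have hf3 : (v, f.2) ∈ B i := by rw [← hf2]; exact hf1
        have hne2 : e.2 ≠ f.2 := fun h => hne (hin i e he1 f hf1 h)
        exact sub_disjoint R (B i) (hBc i) (hhead i) (hin i) v e.2 f.2 y he3 hf3 hne2
          (Finset.mem_filter.1 hy1).2 (Finset.mem_filter.1 hy2).2
      have h4 : (((B i).filter (fun e => e.1 = v)).biUnion
            (fun e => Finset.univ.filter (fun y => Reach (B i) e.2 y))).card ≤ Fintype.card V :=
        Finset.card_le_univ _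
      rw [Finset.sum_const, smul_eq_mul, h3] at h2
      have h5 := h2.trans h4
      rw [mul_comm]
      exact h5
    have h6 : (a + 1) * TH2_s B v ≤ Fintype.card ι * Fintype.card V := by
      unfold TH2_s
      rw [Finset.mul_sum]
      refine (Finset.sum_le_sum fun i _ => h1 i).trans (le_of_eq ?_)
      rw [Finset.sum_const, Finset.card_univ, smul_eq_mul]
    have h7 : (a + 1) * t ≤ (a + 1) * TH2_s B v := Nat.mul_le_mul_left _ hv.le
    omega
  have hwR : w ∉ R := hhead i (v, w) hvw
  -- vertices with many arcs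
  have hT : (Finset.univ.filter (fun u => t ≤ TH2_s B u)).card ≤ a := by
    have h1 : (Finset.univ.filter (fun u => t ≤ TH2_s B u)).card * t ≤ ∑ x, TH2_s B x := by
      have h2 : ∑ u ∈ Finset.univ.filter (fun u => t ≤ TH2_s B u), t ≤
          ∑ u ∈ Finset.univ.filter (fun u => t ≤ TH2_s B u), TH2_s B u :=
        Finset.sum_le_sum fun u hu => (Finset.mem_filter.1 hu).2
      rw [Finset.sum_const, smul_eq_mul] at h2
      exact h2.trans (Finset.sum_le_sum_of_subset (Finset.filter_subset _ _))
    have h3 : (Finset.univ.filter (fun u => t ≤ TH2_s B u)).card * t < (a + 1) * t :=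
      (h1.trans hsum).trans_lt ht
    have h4 := lt_of_mul_lt_mul_right h3 (Nat.zero_le t)
    omega
  -- tails of arcs into `w`
  have hP : (Finset.univ.biUnion (fun j : ι => Finset.univ.filter (fun u => (u, w) ∈ B j))).card ≤
      Fintype.card ι := by
    have h1 := Finset.card_biUnion_le_card_mul (Finset.univ : Finset ι)
      (fun j : ι => Finset.univ.filter (fun u => (u, w) ∈ B j)) 1 (by
        intro j _
        rw [Finset.card_le_one]
        intro x hx y hy
        have h2 := hin j (x, w) (Finset.mem_filter.1 hx).2 (y, w) (Finset.mem_filter.1 hy).2 rfl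
        exact congrArg Prod.fst h2)
    rwa [Finset.card_univ, mul_one] at h1
  -- a new tail
  obtain ⟨u, hu1, hu2⟩ : ∃ u ∈ (A₁.filter (fun e => e.2 = w)).image (fun e => e.1),
      u ∉ (Finset.univ.filter (fun y => Reach (B i) w y) ∪ Finset.univ.filter (fun u => t ≤ TH2_s B u)) ∪
        Finset.univ.biUnion (fun j : ι => Finset.univ.filter (fun u => (u, w) ∈ B j)) := by
    apply Finset.exists_mem_notMem_of_card_lt_card
    have h1 : ((A₁.filter (fun e => e.2 = w)).image (fun e => e.1)).card = inDeg A₁ w := by
      unfold inDeg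
      apply Finset.card_image_of_injOn
      intro e he f hf h
      have h2 := (Finset.mem_filter.1 (Finset.mem_coe.1 he)).2
      have h3 := (Finset.mem_filter.1 (Finset.mem_coe.1 hf)).2
      exact Prod.ext h (h2.trans h3.symm)
    rw [h1]
    refine lt_of_le_of_lt ?_ (hdeg w hwR)
    refine (Finset.card_union_le _ _).trans ?_
    have h4 := Finset.card_union_le (Finset.univ.filter (fun y => Reach (B i) w y))
      (Finset.univ.filter (fun u => t ≤ TH2_s B u))
    omega
  rw [Finset.mem_union, Finset.mem_union, not_or, not_or] at hu2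
  obtain ⟨⟨huD, huT⟩, huP⟩ := hu2
  have huw : (u, w) ∈ A₁ := by
    obtain ⟨e, he, rfl⟩ := Finset.mem_image.1 hu1
    obtain ⟨he1, he2⟩ := Finset.mem_filter.1 he
    rw [← he2]
    exact he1
  have hureach : ¬ Reach (B i) w u := fun h => huD (Finset.mem_filter.2 ⟨Finset.mem_univ _, h⟩)
  have hut : TH2_s B u < t := by
    by_contra h
    exact huT (Finset.mem_filter.2 ⟨Finset.mem_univ _, not_lt.1 h⟩)
  have huj : ∀ j, (u, w) ∉ B j := fun j h => huP (Finset.mem_biUnion.2
    ⟨j, Finset.mem_univ _, Finset.mem_filter.2 ⟨Finset.mem_univ _, h⟩⟩)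
  have huv : u ≠ v := by
    rintro rfl
    omega
  have hC : (u, w) ∉ (B i).erase (v, w) := fun h => huj i (Finset.mem_of_mem_erase h)
  have hgood : TH2_good A₁ R (Function.update B i (insert (u, w) ((B i).erase (v, w)))) := by
    refine ⟨fun j => ?_, fun j k hjk => ?_, fun j => ?_⟩
    · by_cases hj : j = i
      · subst hj
        rw [Function.update_self]
        exact Finset.insert_subset huw ((Finset.erase_subset _ _).trans (hBA j))
      · rw [Function.update_of_ne hj]
        exact hBA j
    · have key : ∀ k, k ≠ i → Disjoint (insert (u, w) ((B i).erase (v, w))) (B k) := by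
        intro k hk
        rw [Finset.disjoint_insert_left]
        exact ⟨huj k, Finset.disjoint_of_subset_left (Finset.erase_subset _ _) (hBd i k hk.symm)⟩
      by_cases hj : j = i
      · subst hj
        rw [Function.update_self, Function.update_of_ne (Ne.symm hjk)]
        exact key k (Ne.symm hjk)
      · by_cases hk : k = i
        · subst hk
          rw [Function.update_self, Function.update_of_ne hj]
          exact (key j hj).symm
        · rw [Function.update_of_ne hj, Function.update_of_ne hk]
          exact hBd j k hjk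
    · by_cases hj : j = i
      · subst hj
        rw [Function.update_self]
        exact cover_exchange R (B j) u v w (hBc j) hvw hureach
      · rw [Function.update_of_ne hj]
        exact hBc j
  have hpot := hm _ hgood
  have hlt := TH2_exch B (Function.update B i (insert (u, w) ((B i).erase (v, w)))) u v huv t hut hv (by
    intro x
    have h1 := TH2_s_update B i (insert (u, w) ((B i).erase (v, w))) x
    have h2 := TH2_out_insert ((B i).erase (v, w)) (u, w) hC x
    have h3 := TH2_out_erase (B i) (v, w) hvw x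
    simp only at h2 h3
    omega)
  omega

end Pool.Agent.H68.OS
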